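import Pool.Agent.Helper43.FRS.Defs
import Pool.Agent.Helper43.RR.SG
import Pool.Agent.Helper43.RR.CF

/-!
The classification of a block with the sign of its form.
-/

set_option linter.unusedSimpArgs false
set_option linter.unusedSectionVars false
set_option linter.unusedVariables false

open Module MTPairs

attribute [local instance 100] LieRing.ofAssociativeRing

namespace FR

open AV MTP UN

namespace CS

/-- Exterior powers which are not self dual. -/
lemma exc_wedge {n k D p r : ℕ} (hk : 2 ≤ k) (hkn : k + 2 ≤ n) (hne : n ≠ 2 * k)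
    (hD : D = n.choose k) (hp : p = (n - 1).choose k) (hr : r = (n - 2).choose (k - 1)) :
    ExcS D 0 (min p (D - p)) r := by
  left
  obtain ⟨j, rfl⟩ : ∃ j, k = j + 1 := ⟨k - 1, by omega⟩
  obtain ⟨m, rfl⟩ : ∃ m, n = m + 1 := ⟨n - 1, by omega⟩
  have e1 : m + 1 - 1 = m := by omega
  have e2 : j + 1 - 1 = j := by omega
  have e3 : m + 1 - 2 = m - 1 := by omega
  rw [e1] at hp
  rw [e2, e3] at hr
  have hsub : D - p = m.choose j := by
    rw [hD, hp, Nat.choose_succ_succ']; omega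
  rcases Nat.lt_or_ge (2 * (j + 1)) (m + 1) with h | h
  · refine ⟨m + 1, j + 1, by omega, hk, by omega, by rw [if_neg (by omega)], hD, ?_,
      by rw [e3, e2, hr]⟩
    rw [hsub, e1, e2, hp]
    apply min_eq_right
    have h1 := Nat.choose_le_succ_of_lt_half_left (r := j) (n := m) (by omega)
    exact h1
  · have h' : m + 1 < 2 * (j + 1) := by omega
    refine ⟨m + 1, m - j, by omega, by omega, by omega, by rw [if_neg (by omega)], ?_, ?_, ?_⟩
    · rw [hD, ← Nat.choose_symm (by omega : j + 1 ≤ m + 1)]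
      congr 1; omega
    · rw [hsub, e1, hp]
      have h2 : m - j - 1 = m - (j + 1) := by omega
      rw [h2, Nat.choose_symm (by omega : j + 1 ≤ m)]
      apply min_eq_left
      have h3 := Nat.choose_le_succ_of_lt_half_left (r := m - (j + 1)) (n := m) (by omega)
      rw [Nat.choose_symm (by omega : j + 1 ≤ m)] at h3
      have h4 : m - (j + 1) + 1 = m - j := by omega
      rw [h4, Nat.choose_symm (by omega : j ≤ m)] at h3
      exact h3
    · rw [hr, e3]
      have h2 : m - j - 1 = (m - 1) - j := by omega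
      rw [h2, Nat.choose_symm (by omega : j ≤ m - 1)]

/-- Self dual exterior powers. -/
lemma exc_mid {m D p r : ℕ} (hm : 3 ≤ m) (hp : 2 * p = D)
    (hD : D = (2 * m).choose m) (hr : r = (2 * m - 2).choose (m - 1)) :
    ExcS D ((-1) ^ m) (min p (D - p)) r := by
  left
  refine ⟨2 * m, m, by omega, by omega, le_refl _, by rw [if_pos rfl], hD, ?_, hr⟩
  have h1 := CL.two_mul_choose (m := m) (by omega)
  omega

lemma exc_spin {D p r n : ℕ} {e : ℤ} (hs : SpinD D e) (hn : 3 ≤ n) (hp : 2 * p = D)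
    (hD : D = 2 ^ n) (hr : r = 2 ^ (n - 2) ∨ r = 2 ^ (n - 1)) :
    ExcS D e (min p (D - p)) r := by
  right
  refine ⟨hs, by omega, ?_⟩
  obtain ⟨k, rfl⟩ : ∃ k, n = k + 2 := ⟨n - 2, by omega⟩
  have e1 : k + 2 - 2 = k := by omega
  have e2 : k + 2 - 1 = k + 1 := by omega
  rw [e1, e2] at hr
  rcases hr with rfl | rfl
  · left; rw [hD, pow_add]; ring
  · right; rw [hD, pow_add, pow_add]; ring

section
variable {K : Type*} [Field K] [IsAlgClosed K] [CharZero K] {W : Type*} [AddCommGroup W]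
  [Module K W] [FiniteDimensional K W] {L : Submodule K (Module.End K W)}
  {b : LinearMap.BilinForm K W}

theorem core_U (h' : ∀ x ∈ L, ∀ y ∈ L, x * y - y * x ∈ L)
    (hirr : ∀ U : Submodule K W, (∀ z ∈ L, ∀ w ∈ U, z w ∈ U) → U = ⊥ ∨ U = ⊤)
    (htr : ∀ z ∈ L, LinearMap.trace K W z = 0) (hsimple : LieAlgebra.IsSimple K (toLie L h'))
    (hform : ∀ b : LinearMap.BilinForm K W, (∀ z ∈ L, IsSk b z) → b = 0)
    {P : Module.End K W} (hP : P * P = P) (h0 : P ≠ 0) (h1 : P ≠ 1) {c : K}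
    (hc : P - c • 1 ∈ L) {N : Module.End K W} (hN : N ∈ L) (hNN : N * N = 0) (hN0 : N ≠ 0) :
    ExcS (finrank K W) 0 (min (rk P) (finrank K W - rk P)) (rk N) ∨
      ((∀ z, LinearMap.trace K W z = 0 → z ∈ L) ∧ 3 ≤ finrank K W) := by
  have hfull : (∀ z, LinearMap.trace K W z = 0 → z ∈ L) →
      ((∀ z, LinearMap.trace K W z = 0 → z ∈ L) ∧ 3 ≤ finrank K W) := by
    intro hf
    refine ⟨hf, ?_⟩
    by_contra hcon
    have h2 := MTP.MF.rk_le_half hNN
    have h3 : 0 < rk N := rk_pos.mpr hN0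
    obtain ⟨b, hb, hb'⟩ := CL.det_form (K := K) (W := W) (by omega)
    exact hb (hform b fun z hz => hb' z (htr z hz))
  by_cases hpq : 2 * rk P = finrank K W
  · rcases UN.lie_half (L := toLie L h') hirr htr hsimple
      (fun b hb => hform b fun z hz u v => hb z hz u v) hP h0 h1 hc hpq hN hNN hN0 with
      h | ⟨n, hodd, hn5, hD, hp, hr⟩
    · exact Or.inr (hfull h)
    · left
      have e1 : n - 1 - 2 = n - 3 := by omega
      have e2 : n - 1 - 1 = n - 2 := by omega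
      obtain ⟨j, hj⟩ := hodd
      exact exc_spin (n := n - 1)
        (Or.inr (Or.inr ⟨rfl, n - 1, by omega, ⟨j, by omega⟩, hD⟩)) (by omega) hpq hD
        (by rw [e1, e2]; exact hr)
  · rcases UN.lie_main (L := toLie L h') hirr htr hsimple hP h0 h1 hc hpq hN hNN hN0 with
      h | ⟨n, k, hk, hkn, hne, hD, hp, hr⟩
    · exact Or.inr (hfull h)
    · exact Or.inl (exc_wedge hk hkn hne hD hp hr)

theorem core_S (hL : IrrSymp b L) (hnd : b.Nondegenerate) (halt : b.IsAlt)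
    (hsimple : LieAlgebra.IsSimple K (toLie L hL.br))
    {P : Module.End K W} (hP : P * P = P)
    (hc : P - (2 : K)⁻¹ • 1 ∈ L) {N : Module.End K W} (hN : N ∈ L) (hNN : N * N = 0)
    (hN0 : N ≠ 0) :
    ExcS (finrank K W) (-1) (min (rk P) (finrank K W - rk P)) (rk N) ∨
      ∀ z, IsSk b z → z ∈ L := by
  have hW : Nontrivial W := by
    by_contra hcon
    rw [not_nontrivial_iff_subsingleton] at hcon
    exact hN0 (Subsingleton.elim _ _)
  have hpq := CL.rk_half hP (trace_eq_zero_of_sk hnd (hL.sk _ hc))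
  obtain ⟨hs, hss⟩ := CL.involution hP hc
  have hs0 : (2 : K) • P - 1 ≠ 0 := by
    intro h
    rw [h, mul_zero] at hss
    exact zero_ne_one hss
  rcases TR.simple_class (L := toLie L hL.br)
    (OR.ctx_of_inv (L := toLie L hL.br) hL hnd hsimple hs hss hs0) halt hsimple hN hNN hN0 with
    h | ⟨m, hodd, hm, hD, hr⟩ | ⟨n, hn4, hn, hD, hr⟩
  · exact Or.inr h
  · left
    have h1 := exc_mid hm hpq hD hr
    rwa [hodd.neg_one_pow] at h1
  · exact Or.inl (exc_spin (Or.inl ⟨rfl, n, hn, hn4, hD⟩) (by omega) hpq hD hr)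

theorem core_O (hL : IrrSymp b L) (hnd : b.Nondegenerate) (hsy : ∀ v w, b v w = b w v)
    (hsimple : LieAlgebra.IsSimple K (toLie L hL.br)) (hsmp : Smp L)
    {P : Module.End K W} (hP : P * P = P)
    (hc : P - (2 : K)⁻¹ • 1 ∈ L) {N : Module.End K W} (hN : N ∈ L) (hNN : N * N = 0)
    (hN0 : N ≠ 0) :
    ExcS (finrank K W) 1 (min (rk P) (finrank K W - rk P)) (rk N) ∨
      ((∀ z, IsSk b z → z ∈ L) ∧ Even (finrank K W) ∧
        (finrank K W = 6 ∨ 10 ≤ finrank K W)) := by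
  have hpq := CL.rk_half hP (trace_eq_zero_of_sk hnd (hL.sk _ hc))
  obtain ⟨hs, hss⟩ := CL.involution hP hc
  rcases OR.orth_class (L := toLie L hL.br) hL hnd hsy hsimple hs hss hN hNN hN0 with
    h | ⟨m, hev, hm, hD, hr⟩ | ⟨n, hn4, hn, hD, hr⟩
  · have hLb : L = skw b := le_antisymm (fun z hz => hL.sk z hz) h
    have h2 := MTP.MF.rk_le_half hNN
    have h3 : 0 < rk N := rk_pos.mpr hN0
    have hev := rk_even hnd hsy (hL.sk N hN)
    by_cases hd : finrank K W = 6 ∨ 10 ≤ finrank K W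
    · exact Or.inr ⟨h, ⟨rk P, by omega⟩, hd⟩
    · push Not at hd
      obtain ⟨j, hj⟩ := hev
      have hdim : finrank K W = 4 ∨ finrank K W = 8 := by omega
      rcases hdim with hd4 | hd8
      · exfalso
        obtain ⟨M, hM, hMi, hM0, hM1⟩ := so_four hnd hsy hd4 hP (hL.sk _ hc)
        rw [← hLb] at hM hMi hM1
        rcases hsmp M hM hMi with h4 | h4
        · exact hM0 h4
        · exact hM1 h4
      · left
        exact exc_spin (n := 3) (Or.inr (Or.inl ⟨rfl, 3, le_refl _, Or.inr rfl, by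
          rw [hd8]; norm_num⟩)) (le_refl _) hpq (by rw [hd8]; norm_num) (by
          have : rk N = 2 ∨ rk N = 4 := by omega
          rcases this with h4 | h4
          · left; rw [h4]; norm_num
          · right; rw [h4]; norm_num)
  · left
    have h1 := exc_mid (by omega) hpq hD hr
    rwa [hev.neg_one_pow] at h1
  · exact Or.inl (exc_spin (Or.inr (Or.inl ⟨rfl, n, hn, hn4, hD⟩)) hn hpq hD hr)

end

end CS

variable {K : Type*} [Field K] [IsAlgClosed K] [CharZero K] {V : Type*} [AddCommGroup V]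
  [Module K V] [FiniteDimensional K V]
  {ω : LinearMap.BilinForm K V} {G : Set (Module.End K V)}
  {T : Set (Module.End K V ≃+* Module.End K V)} {p0 ε : Module.End K V} {W : Submodule K V}

/-- The classification of a block, with sign. -/
theorem classifyS (D : MStr ω G T p0) (hε : Bl (AA G T p0) ε)
    (hW : Irr (AA G T p0 : Set (Module.End K V)) W) (hWε : InB ε W)
    (hns : ∀ p ∈ SC G T p0, p * ε ≠ 0 ∧ p * ε ≠ ε) (hs : Smp (Lb G T p0 ε))
    {N : Module.End K V} (hN : N ∈ Lb G T p0 ε) (hNN : N * N = 0) (hN0 : N ≠ 0)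
    {p : Module.End K V} (hp : p ∈ SC G T p0) :
    (∃ e, SgB ω (AA G T p0) ε W e ∧ ExcS (finrank K W) e
      (min (MTP.rk (Rw W p)) (finrank K W - MTP.rk (Rw W p))) (MTP.rk (Rw W N))) ∨
    (FullB ω G T p0 ε ∧ (TyU ω ε W ∨ TyS ω (AA G T p0) ε W ∨ TyO ω (AA G T p0) ε W)) := by
  have R := D.ssA.rs hε hW hWε
  have hLB := D.lb_le hε
  have hbr : ∀ x ∈ Lb G T p0 ε, ∀ y ∈ Lb G T p0 ε, x * y - y * x ∈ Lb G T p0 ε :=
    fun x hx y hy => D.lb_br hε hx hy
  have hirr := D.irr_lb hε hW hWε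
  have htr : ∀ x ∈ Lb G T p0 ε, LinearMap.trace K V x = 0 := fun x hx => D.lb_tr hε hx
  have hWnt : Nontrivial W := (Submodule.nontrivial_iff_ne_bot).mpr hW.ne
  have h' := CL.map_br R hLB hbr
  have hsimple := R.simple hLB hbr hirr htr hs hN hN0 h'
  have hirr' : ∀ U : Submodule K W, (∀ z ∈ (Lb G T p0 ε).map (Rw W), ∀ w ∈ U, z w ∈ U) →
      U = ⊥ ∨ U = ⊤ := fun U hU => hirr U fun x hx w hw => hU _ ⟨x, hx, rfl⟩ w hw
  have htr' : ∀ z ∈ (Lb G T p0 ε).map (Rw W), LinearMap.trace K W z = 0 := by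
    rintro _ ⟨x, hx, rfl⟩
    exact CL.tr_zero R (hLB hx) (htr x hx)
  have hρε : ∀ x : Module.End K V, Rw W (x * ε) = Rw W x := by
    intro x
    ext w
    change ((prj W (x (ε w)) : W) : V) = prj W (x w)
    rw [hWε w w.2]
  have hAe : ∀ x ∈ AA G T p0, x * ε ∈ Ae (AA G T p0) ε := fun x hx =>
    ⟨mul_mem hx hε.mem, by rw [mul_assoc, hε.idem]⟩
  have hρ1 : Rw W (1 : Module.End K V) = 1 := by
    ext w
    change ((prj W (w : V) : W) : V) = w
    rw [prj_coe]
  have hpA := D.sc_mem hp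
  have hpe := hAe p hpA
  have hP : Rw W p * Rw W p = Rw W p := by
    have h1 : p * ε * (p * ε) = p * ε := by
      rw [mul_assoc p ε, ← mul_assoc ε p ε, hε.cen p hpA, mul_assoc p ε ε, hε.idem, ← mul_assoc,
        D.c1 hp]
    rw [← hρε p, ← R.hom _ hpe _ hpe, h1]
  have h0 : Rw W p ≠ 0 := by
    intro h
    exact (hns p hp).1 (R.inj _ hpe (by rw [hρε, h]))
  have h1 : Rw W p ≠ 1 := by
    intro h
    have h2 : p * ε - 1 * ε = 0 := R.inj _ (sub_mem hpe (hAe 1 (one_mem _)))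
      (by rw [map_sub, hρε, hρε, h, hρ1, sub_self])
    exact (hns p hp).2 (by rw [sub_eq_zero.mp h2, one_mul])
  have hc' : ∀ c : K, (p - c • 1) * ε ∈ Lb G T p0 ε →
      Rw W p - c • 1 ∈ (Lb G T p0 ε).map (Rw W) := by
    intro c hc
    refine ⟨_, hc, ?_⟩
    rw [hρε, map_sub, map_smul, hρ1]
  have hN' : Rw W N ∈ (Lb G T p0 ε).map (Rw W) := ⟨N, hN, rfl⟩
  have hNN' : Rw W N * Rw W N = 0 := by
    rw [← R.hom _ (hLB hN) _ (hLB hN), hNN, map_zero]
  have hN0' : Rw W N ≠ 0 := fun h => hN0 (R.inj _ (hLB hN) h)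
  by_cases hsd : SD ω ε
  · obtain ⟨b, hF, hsa⟩ := D.sd_form hε hsd hW hWε
    have hIS : IrrSymp b ((Lb G T p0 ε).map (Rw W)) := by
      refine ⟨h', ?_, hirr'⟩
      rintro _ ⟨x, hx, rfl⟩
      exact (hF.sk x (hLB hx).1 (hLB hx).2).1 (D.lb_sk hε hsd hx)
    have hc := hc' _ (D.lb_half hε hsd hns hp)
    have hfull : (∀ z, IsSk b z → z ∈ (Lb G T p0 ε).map (Rw W)) → FullB ω G T p0 ε := by
      intro hf x hx hxe ht hsk
      exact CL.mem_of_map R hLB ⟨hx, hxe⟩ (hf _ ((hF.sk x hx hxe).1 (hsk hsd)))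
    rcases hsa with hsy | halt
    · rcases CS.core_O hIS hF.nd hsy hsimple (CL.map_smp R hLB hbr hs) hP hc hN' hNN' hN0' with
        h | ⟨h, hev, hd⟩
      · exact Or.inl ⟨1, Or.inr ⟨hsd, b, hF, Or.inl ⟨rfl, hsy⟩⟩, h⟩
      · exact Or.inr ⟨hfull h, Or.inr (Or.inr ⟨hsd, hev, hd, b, hF, hsy⟩)⟩
    · rcases CS.core_S hIS hF.nd halt hsimple hP hc hN' hNN' hN0' with h | h
      · exact Or.inl ⟨-1, Or.inr ⟨hsd, b, hF, Or.inr ⟨rfl, halt⟩⟩, h⟩
      · exact Or.inr ⟨hfull h, Or.inr (Or.inl ⟨hsd, b, hF, halt⟩)⟩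
  · obtain ⟨c, hc⟩ := D.lb_p hε hp
    rcases CS.core_U h' hirr' htr' hsimple (fun b hb => D.nsd_form hε hsd hns hW hWε b
      fun x hx => hb _ ⟨x, hx, rfl⟩) hP h0 h1 (hc' c hc) hN' hNN' hN0' with h | ⟨h, hd⟩
    · exact Or.inl ⟨0, Or.inl ⟨rfl, hsd⟩, h⟩
    · refine Or.inr ⟨?_, Or.inl ⟨hsd, hd⟩⟩
      intro x hx hxe ht hsk
      exact CL.mem_of_map R hLB ⟨hx, hxe⟩ (h _ (CL.tr_zero R ⟨hx, hxe⟩ ht))

end FR
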