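import Pool.Agent.Helper2.FR.Defs
import Pool.Agent.Helper43.RR.Defs

/-!
Strong Mumford-Tate pairs with Frobenius elements and signs: definitions.
-/

open Module MTPairs

namespace FR

open AV

/-- The exceptional quadruples (dimension, sign, signature, rank). -/
def ExcS (D : ℕ) (e : ℤ) (s r : ℕ) : Prop :=
  (∃ n j, 5 ≤ n ∧ 2 ≤ j ∧ 2 * j ≤ n ∧ e = (if 2 * j = n then (-1) ^ j else 0) ∧
    D = n.choose j ∧ s = (n - 1).choose (j - 1) ∧ r = (n - 2).choose (j - 1)) ∨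
  (SpinD D e ∧ 2 * s = D ∧ (4 * r = D ∨ 2 * r = D))

/-- The exceptional quintuples (dimension, sign, signature, rank, number of eigenvalues). -/
def ExcFS (D : ℕ) (e : ℤ) (s r k : ℕ) : Prop :=
  (∃ n j, 5 ≤ n ∧ 2 ≤ j ∧ 2 * j ≤ n ∧ e = (if 2 * j = n then (-1) ^ j else 0) ∧
    D = n.choose j ∧ s = (n - 1).choose (j - 1) ∧ r = (n - 2).choose (j - 1) ∧
    (k = 1 ∨ k = 2)) ∨
  (SpinD D e ∧ 2 * s = D ∧ (4 * r = D ∧ (k = 1 ∨ k = 2) ∨ 2 * r = D ∧ k = 0))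

/-- An exceptional example with sign. -/
def HasExS (K : Type*) [Field K] (D : ℕ) (e : ℤ) (s r : ℕ) : Prop :=
  ∃ (m : Type) (_ : Fintype m) (_ : DecidableEq m) (J : Matrix m m K)
    (G : Subgroup (Matrix.GeneralLinearGroup m K)) (π : Matrix m m K),
    IsStrongMTPair ⊥ J G π ∧ IsReductiveRep G ∧
    (∀ W, IsIrrSub G W → finrank K W = D ∧ HasSign J G W e ∧ HasSig ⊥ G π W s ∧
      BadAt ⊥ G π W r) ∧ ¬ ContainsDer J G

/-- An exceptional example with sign and a Frobenius element. -/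
def HasExFS (K : Type*) [Field K] (D : ℕ) (e : ℤ) (s r k : ℕ) : Prop :=
  ∃ (m : Type) (_ : Fintype m) (_ : DecidableEq m) (J : Matrix m m K)
    (G : Subgroup (Matrix.GeneralLinearGroup m K)) (π : Matrix m m K),
    IsStrongMTPair ⊥ J G π ∧ IsReductiveRep G ∧
    (∀ W, IsIrrSub G W → finrank K W = D ∧ HasSign J G W e ∧ HasSig ⊥ G π W s ∧
      BadAt ⊥ G π W r ∧ HasFrob ⊥ G π W r k) ∧ ¬ ContainsDer J G

end FR
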