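import Pool.Agent.Helper43.FRS.ShP
import Pool.Agent.Helper43.RT.Sh
import Pool.Agent.Helper67.FR.FS

/-!
Sharpness with signs and Frobenius elements.
-/

set_option linter.unusedSimpArgs false
set_option linter.unusedSectionVars false
set_option linter.unusedVariables false

open Module MTPairs

namespace FR

section wedge
open AV AV.SHW UN.W TR TR.W3

/-- The exterior powers, with sign. -/
theorem exS_wedge (K : Type*) [Field K] [IsAlgClosed K] [CharZero K] {n k : ℕ} (hn : 5 ≤ n)
    (hk : 2 ≤ k) (hkn : 2 * k ≤ n) :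
    HasExS K (n.choose k) (if 2 * k = n then (-1) ^ k else 0) ((n - 1).choose (k - 1))
      ((n - 2).choose (k - 1)) := by
  obtain ⟨hc1, hc2⟩ := choose_facts hk hkn
  set i0 : Fin n := ⟨0, by omega⟩
  set j0 : Fin n := ⟨1, by omega⟩
  have h01 : i0 ≠ j0 := by
    intro h; exact absurd (congrArg Fin.val h) (by simp [i0, j0])
  have hP : M K k i0 i0 ∈ Lam K (Fin n) k := Or.inl ⟨i0, rfl⟩
  have hconj : IsConj ⊥ (GG K (Fin n) k) (D (M K k i0 i0)) (D (M K k i0 i0)) :=
    ⟨1, Subgroup.one_mem _, 1, Subgroup.one_mem _, fun v => by simp⟩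
  refine ⟨Ix (Fin n) k ⊕ Ix (Fin n) k, inferInstance, inferInstance, Jd K _, GG K (Fin n) k,
    D (M K k i0 i0), strong i0, reductive GG_cen irr1 irr2, ?_,
    not_contains' hk (by rwa [Fintype.card_fin]) (by rwa [Fintype.card_fin])⟩
  intro W hW
  have hr := irr_rank GG_cen irr1 irr2 hW
  have hone : (1 : Matrix (Ix (Fin n) k ⊕ Ix (Fin n) k) (Ix (Fin n) k ⊕ Ix (Fin n) k) K) =
      Matrix.fromBlocks 1 0 0 1 := Matrix.fromBlocks_one.symm
  have hcard : Fintype.card (Ix (Fin n) k) = n.choose k := by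
    rw [Fintype.card_finset_len, Fintype.card_fin]
  have hdim : finrank K W = n.choose k := by
    have e : rankOn (Matrix.fromBlocks (1 : Matrix (Ix (Fin n) k) (Ix (Fin n) k) K) 0 0 1) W =
        finrank K W := by
      unfold rankOn
      rw [← hone, Matrix.mulVecLin_one, Submodule.map_id]
    have hp : ∀ v ∈ W, (Matrix.fromBlocks (1 : Matrix (Ix (Fin n) k) (Ix (Fin n) k) K)
        0 0 1).mulVec v ∈ W := by
      intro v hv
      rw [← hone, Matrix.one_mulVec]
      exact hv
    rcases hr with h | h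
    · have := h 1 1 hp
      rw [e, Matrix.rank_one, hcard] at this
      exact this
    · have := h 1 1 hp
      rw [e, Matrix.rank_one, hcard] at this
      exact this
  have hDW : ∀ v ∈ W, (D (M K k i0 i0)).mulVec v ∈ W := pres_D hW.sub hP
  have hrk1 : (M K k i0 i0).rank = (n - 1).choose (k - 1) := by
    rw [rank_in i0 (by omega), Fintype.card_fin]
  have hrk2 : (1 - (M K k i0 i0).transpose).rank = (n - 1).choose k := by
    rw [rank_notin i0, Fintype.card_fin]
  have hsign : HasSign (Jd K (Ix (Fin n) k)) (GG K (Fin n) k) W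
      (if 2 * k = n then (-1) ^ k else 0) := by
    split_ifs with h2k
    · subst h2k
      exact SW.sign_mid hW
    · exact SW.sign_off (by rw [Fintype.card_fin]; omega) hW
  refine ⟨hdim, hsign, ⟨D (M K k i0 i0), hconj, ?_⟩, ?_⟩
  · rw [hdim, hc1]
    rcases hr with h | h
    · have := h _ _ hDW
      change rankOn (D (M K k i0 i0)) W = _ at this
      rw [this, hrk1]
      omega
    · have := h _ _ hDW
      change rankOn (D (M K k i0 i0)) W = _ at this
      rw [this, hrk2]
      omega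
  · intro γ hγ E
    rw [Subgroup.mem_bot] at hγ
    subst hγ
    have eu : (L (un K k h01) : Matrix _ _ K) - 1 =
        Matrix.fromBlocks (M K k i0 j0) 0 0 (-(M K k i0 j0).transpose) := by
      have e1 : (un K k h01).val = 1 + M K k i0 j0 := rfl
      have e2 : ((un K k h01)⁻¹).val = 1 - M K k i0 j0 := rfl
      rw [L_val, e1, e2, ← Matrix.fromBlocks_one, sub_eq_add_neg, Matrix.fromBlocks_neg,
        Matrix.fromBlocks_add]
      congr 1
      · abel
      · simp
      · simp
      · rw [Matrix.transpose_sub, Matrix.transpose_one]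
        abel
    have hm1 : M K k i0 i0 * M K k i0 j0 = M K k i0 j0 := M_diag_mul _ _
    have hm2 : M K k i0 j0 * M K k i0 i0 = 0 := M_mul_diag h01
    have ht1 : (M K k i0 j0).transpose * (M K k i0 i0).transpose = (M K k i0 j0).transpose := by
      rw [← Matrix.transpose_mul, hm1]
    have ht2 : (M K k i0 i0).transpose * (M K k i0 j0).transpose = 0 := by
      rw [← Matrix.transpose_mul, hm2, Matrix.transpose_zero]
    refine ⟨1, Subgroup.one_mem _, fun _ _ => rfl, L (un K k h01), Lun_mem h01,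
      D (M K k i0 i0), hconj, ?_, ?_, fun _ => rfl, ?_⟩
    · rw [eu, D, Matrix.fromBlocks_multiply]
      congr 1
      · rw [hm1]; simp
      · simp
      · simp
      · rw [sub_mul, one_mul, mul_neg, ht2]; simp
    · rw [eu, D, Matrix.fromBlocks_multiply, ← Matrix.fromBlocks_zero]
      congr 1
      · rw [hm2]; simp
      · simp
      · simp
      · rw [mul_sub, mul_one, neg_mul, ht1]; simp
    · intro θ hθ U hU
      rw [Subgroup.mem_bot] at hθ
      subst hθ
      have hUW : U = W := by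
        ext v
        exact (hU v).symm
      subst hUW
      have hp : ∀ v ∈ U, (Matrix.fromBlocks (M K k i0 j0) 0 0
          (-(M K k i0 j0).transpose)).mulVec v ∈ U := by
        intro v hv
        rw [← eu, Matrix.sub_mulVec, Matrix.one_mulVec]
        exact U.sub_mem (hW.sub _ (Lun_mem h01) v hv) hv
      have hrk : (M K k i0 j0).rank = (n - 2).choose (k - 1) := by
        have := rank_M (K := K) (k := k) h01 (by omega)
        rw [← LinearMap.range_eq_map, Fintype.card_fin] at this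
        exact this
      have hrk' : (-(M K k i0 j0).transpose).rank = (n - 2).choose (k - 1) := by
        rw [← neg_one_smul K, Matrix.rank_smul_of_mem_nonZeroDivisors, Matrix.rank_transpose, hrk]
        exact mem_nonZeroDivisors_of_ne_zero (by norm_num)
      rw [eu]
      rcases hr with h | h
      · exact (h _ _ hp).trans hrk
      · exact (h _ _ hp).trans hrk'

end wedge

open AV MTP UN

/-- The signature is half the dimension if the cocharacter is conjugate to its opposite. -/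
lemma sig_of_so {K : Type*} [Field K] [CharZero K] {m : Type*} [Fintype m] [DecidableEq m]
    {G : Subgroup (Matrix.GeneralLinearGroup m K)} {π : Matrix m m K}
    {W : Submodule K (m → K)} {s : ℕ} (hc : IsCochar G π) (hso : IsSelfOpposite G π)
    (hW : IsSub G W) (hs : 2 * s = finrank K W) : HasSig ⊥ G π W s := by
  refine ⟨π, ⟨1, Subgroup.one_mem _, 1, G.one_mem, fun v => by simp⟩, ?_⟩
  suffices h : 2 * rankOn π W = finrank K W by omega
  have hPW : ∀ v ∈ W, π.mulVec v ∈ W := fun v hv => SM.mem_U_of_cochar hc hW hv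
  obtain ⟨g, hg, hgp⟩ := hso
  have hinj : Function.Injective (g : Matrix m m K).mulVecLin := by
    intro v w hvw
    have h1 := congrArg (((g⁻¹ : Matrix.GeneralLinearGroup m K) : Matrix m m K).mulVec) hvw
    rw [Matrix.mulVecLin_apply, Matrix.mulVecLin_apply, Matrix.mulVec_mulVec,
      Matrix.mulVec_mulVec, Units.inv_mul, Matrix.one_mulVec, Matrix.one_mulVec] at h1
    exact h1
  have hgW : W.map (g : Matrix m m K).mulVecLin = W := by
    apply le_antisymm
    · rintro _ ⟨v, hv, rfl⟩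
      exact hW g hg v hv
    · intro v hv
      refine ⟨((g⁻¹ : Matrix.GeneralLinearGroup m K) : Matrix m m K).mulVec v,
        hW _ (G.inv_mem hg) v hv, ?_⟩
      rw [Matrix.mulVecLin_apply, Matrix.mulVec_mulVec, Units.mul_inv, Matrix.one_mulVec]
  have e1 : finrank K (W.map (1 - π).mulVecLin) = finrank K (W.map π.mulVecLin) := by
    have e2 : W.map (1 - π).mulVecLin = (W.map π.mulVecLin).map (g : Matrix m m K).mulVecLin := by
      conv_lhs => rw [← hgW]
      rw [← Submodule.map_comp, ← Submodule.map_comp, ← Matrix.mulVecLin_mul,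
        ← Matrix.mulVecLin_mul, hgp]
    rw [e2]
    exact ((Submodule.equivMapOfInjective _ hinj _).finrank_eq).symm
  have e3 : W ⊓ LinearMap.ker π.mulVecLin = W.map (1 - π).mulVecLin := by
    ext v
    constructor
    · rintro ⟨h1, h2⟩
      refine ⟨v, h1, ?_⟩
      rw [SetLike.mem_coe, LinearMap.mem_ker, Matrix.mulVecLin_apply] at h2
      rw [Matrix.mulVecLin_apply, Matrix.sub_mulVec, Matrix.one_mulVec, h2, sub_zero]
    · rintro ⟨w, hw, rfl⟩
      refine ⟨?_, ?_⟩
      · rw [SetLike.mem_coe, Matrix.mulVecLin_apply, Matrix.sub_mulVec, Matrix.one_mulVec]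
        exact W.sub_mem hw (hPW w hw)
      · rw [SetLike.mem_coe, LinearMap.mem_ker, Matrix.mulVecLin_apply, Matrix.mulVecLin_apply,
          Matrix.mulVec_mulVec, mul_sub, mul_one, hc.1, sub_self, Matrix.zero_mulVec]
  have h4 := TR.finrank_inf_ker π.mulVecLin W
  rw [inf_comm, e3, e1] at h4
  unfold rankOn
  omega

/-- The spin representations, with sign. -/
theorem exS_spin (K : Type*) [Field K] [IsAlgClosed K] [CharZero K] {D : ℕ} {e : ℤ}
    (h : SpinD D e) {s r : ℕ} (hs : 2 * s = D) (hr : 4 * r = D ∨ 2 * r = D) :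
    HasExS K D e s r := by
  have key : HasEx4 K D e r → HasExS K D e s r := by
    rintro ⟨m, i1, i2, J, G, π, h1, h2, h3, h4, h5⟩
    refine ⟨m, i1, i2, J, G, π, h1, h2, fun W hW => ?_, h5⟩
    obtain ⟨a, b, c⟩ := h4 W hW
    exact ⟨a, b, sig_of_so h1.coch h3 hW.sub (by rw [a, hs]), c⟩
  have hrn : ∀ n, 3 ≤ n → D = 2 ^ n → r = 0 ∨ r = 2 ^ (n - 2) ∨ r = 2 ^ (n - 1) := by
    intro n hn hD
    obtain ⟨j, rfl⟩ : ∃ j, n = j + 2 := ⟨n - 2, by omega⟩
    have e1 : j + 2 - 2 = j := by omega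
    have e2 : j + 2 - 1 = j + 1 := by omega
    have e3 : (2 : ℕ) ^ (j + 2) = 4 * 2 ^ j := by ring
    have e4 : (2 : ℕ) ^ (j + 1) = 2 * 2 ^ j := by ring
    rw [e1, e2, e4]
    rw [e3] at hD
    omega
  rcases h with ⟨rfl, n, a1, a2, a3⟩ | ⟨rfl, n, a1, a2, a3⟩ | ⟨rfl, n, a1, a2, a3⟩
  · have := hrn n (by omega) a3
    subst a3
    exact key (ex4_S K a1 a2 this)
  · have := hrn n a1 a3
    subst a3
    exact key (ex4_O K a1 a2 this)
  · have := hrn n (by omega) a3
    subst a3
    exact key (ex4_U K a1 a2 this)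

/-- The exceptional quintuples are realised. -/
theorem hasExFS_of {K : Type*} [Field K] [IsAlgClosed K] [CharZero K] {D : ℕ} {e : ℤ}
    {s r k : ℕ} (h : ExcFS D e s r k) : HasExFS K D e s r k := by
  have key : HasExS K D e s r → ((k = 0 ∧ 2 * r = D) ∨ (k = 1 ∧ 2 * r ≠ D) ∨
      (k = 2 ∧ r < s)) → HasExFS K D e s r k := by
    rintro ⟨m, i1, i2, J, G, π, h1, h2, h3, h4⟩ hk
    refine ⟨m, i1, i2, J, G, π, h1, h2, fun W hW => ?_, h4⟩
    obtain ⟨h5, h6, h7, h8⟩ := h3 W hW
    refine ⟨h5, h6, h7, h8, ?_⟩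
    have h9 := frob_one h1 hW h8
    rcases hk with ⟨rfl, hk⟩ | ⟨rfl, hk⟩ | ⟨rfl, hk⟩
    · rwa [if_pos (by rw [h5, hk])] at h9
    · rwa [if_neg (by rw [h5]; exact hk)] at h9
    · exact frob_two h1 hW h8 h7 hk
  rcases h with ⟨n, j, hn, hj, hjn, rfl, rfl, rfl, rfl, hk⟩ | ⟨hsp, hs, hk⟩
  · refine key (exS_wedge K hn hj hjn) (Or.inr ?_)
    obtain ⟨a, rfl⟩ : ∃ a, n = a + 2 := ⟨n - 2, by omega⟩
    obtain ⟨b, rfl⟩ : ∃ b, j = b + 2 := ⟨j - 2, by omega⟩
    have e1 : a + 2 - 2 = a := by omega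
    have e2 : b + 2 - 1 = b + 1 := by omega
    have e3 : a + 2 - 1 = a + 1 := by omega
    rw [e1, e2, e3]
    have h1 : (a + 1).choose (b + 1) = a.choose b + a.choose (b + 1) := Nat.choose_succ_succ a b
    have h2 : (a + 1).choose (b + 2) = a.choose (b + 1) + a.choose (b + 2) :=
      Nat.choose_succ_succ a (b + 1)
    have h3 : (a + 2).choose (b + 2) = (a + 1).choose (b + 1) + (a + 1).choose (b + 2) :=
      Nat.choose_succ_succ (a + 1) (b + 1)
    have h4 : 0 < a.choose b := Nat.choose_pos (by omega)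
    rcases hk with rfl | rfl
    · exact Or.inl ⟨rfl, by omega⟩
    · exact Or.inr ⟨rfl, by omega⟩
  · have hpos : 0 < D := by
      rcases hsp with ⟨-, n, -, -, rfl⟩ | ⟨-, n, -, -, rfl⟩ | ⟨-, n, -, -, rfl⟩ <;> positivity
    rcases hk with ⟨hr, rfl | rfl⟩ | ⟨hr, rfl⟩
    · exact key (exS_spin K hsp hs (Or.inl hr)) (Or.inr (Or.inl ⟨rfl, by omega⟩))
    · exact key (exS_spin K hsp hs (Or.inl hr)) (Or.inr (Or.inr ⟨rfl, by omega⟩))
    · exact key (exS_spin K hsp hs (Or.inr hr)) (Or.inl ⟨rfl, hr⟩)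

/-- The special linear group of rank four, with signs and Frobenius elements. -/
theorem exFS_four (K : Type*) [Field K] [IsAlgClosed K] [CharZero K] (k : ℕ)
    (hk : k = 1 ∨ k = 2) :
    ∃ (m : Type) (_ : Fintype m) (_ : DecidableEq m) (J : Matrix m m K)
      (G : Subgroup (Matrix.GeneralLinearGroup m K)) (π : Matrix m m K),
      IsStrongMTPair ⊥ J G π ∧ IsReductiveRep G ∧
      (∀ W, IsIrrSub G W → (finrank K W = 6 ∧ HasSign J G W 1 ∧ HasSig ⊥ G π W 3 ∧
          BadAt ⊥ G π W 2 ∧ HasFrob ⊥ G π W 2 k) ∨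
        (finrank K W = 4 ∧ HasSign J G W 0 ∧ HasSig ⊥ G π W 1 ∧ BadAt ⊥ G π W 1 ∧
          HasFrob ⊥ G π W 1 1)) ∧ ¬ ContainsDer J G := by
  obtain ⟨m, i1, i2, J, G, π, h1, h2, h3, h4⟩ := SP.exS_four K
  refine ⟨m, i1, i2, J, G, π, h1, h2, fun W hW => ?_, h4⟩
  rcases h3 W hW with ⟨h5, h0, h6, h7⟩ | ⟨h5, h0, h6, h7⟩
  · refine Or.inl ⟨h5, h0, h6, h7, ?_⟩
    rcases hk with rfl | rfl
    · have h8 := frob_one h1 hW h7
      rwa [if_neg (by rw [h5]; norm_num)] at h8
    · exact frob_two h1 hW h7 h6 (by norm_num)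
  · refine Or.inr ⟨h5, h0, h6, h7, ?_⟩
    have h8 := frob_one h1 hW h7
    rwa [if_neg (by rw [h5]; norm_num)] at h8

end FR
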