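import Pool.Agent.Helper2.FR.Fin
import Pool.Agent.Helper43.FRS.Cls
import Pool.Agent.Helper43.FRS.Sh

/-!
Semisimple Mumford-Tate pairs with Frobenius elements and signs: the group theorem and the
criterion.
-/

set_option linter.unusedSimpArgs false
set_option linter.unusedSectionVars false
set_option linter.unusedVariables false

open Module MTPairs

namespace FR

open MTP UN AV

/-- The exceptional quintuples from the exceptional quadruples. -/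
lemma excFS_of {D s r k : ℕ} {e : ℤ} (h : ExcS D e s r) (hk : k ≤ 2)
    (hk0 : k = 0 ↔ 2 * r = D) : ExcFS D e s r k := by
  rcases h with ⟨n, j, h1, h2, h3, h7, h4, h5, h6⟩ | ⟨h1, h2, h3⟩
  · left
    refine ⟨n, j, h1, h2, h3, h7, h4, h5, h6, ?_⟩
    have := choose_lt h2 h3
    rw [h4, h6] at hk0
    omega
  · right
    refine ⟨h1, h2, ?_⟩
    have hpos : 0 < D := by
      rcases h1 with ⟨-, n, -, -, rfl⟩ | ⟨-, n, -, -, rfl⟩ | ⟨-, n, -, -, rfl⟩ <;> positivity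
    rcases h3 with h3 | h3
    · left
      exact ⟨h3, by omega⟩
    · right
      exact ⟨h3, by omega⟩

/-- The exceptional triples. -/
lemma exc_of_S {D s r : ℕ} {e : ℤ} (h : ExcS D e s r) : Exc D s r := by
  rcases h with ⟨n, j, h1, h2, h3, h7, h4, h5, h6⟩ | ⟨h1, h2, h3⟩
  · exact Or.inl ⟨n, j, h1, h2, h3, h4, h5, h6⟩
  · obtain ⟨n, hn, hD⟩ : ∃ n, 3 ≤ n ∧ D = 2 ^ n := by
      rcases h1 with ⟨-, n, h1, -, h2⟩ | ⟨-, n, h1, -, h2⟩ | ⟨-, n, h1, -, h2⟩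
      · exact ⟨n, by omega, h2⟩
      · exact ⟨n, h1, h2⟩
      · exact ⟨n, by omega, h2⟩
    right
    obtain ⟨j, rfl⟩ : ∃ j, n = j + 3 := ⟨n - 3, by omega⟩
    have e1 : j + 4 - 1 = j + 3 := by omega
    have e2 : j + 4 - 2 = j + 2 := by omega
    have e3 : j + 4 - 3 = j + 1 := by omega
    have e4 : (2 : ℕ) ^ (j + 3) = 4 * 2 ^ (j + 1) := by ring
    have e5 : (2 : ℕ) ^ (j + 2) = 2 * 2 ^ (j + 1) := by ring
    refine ⟨j + 4, by omega, by rw [e1, hD], ?_, ?_⟩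
    · rw [e2]; omega
    · rw [e2, e3]; omega

section
variable {K : Type*} [Field K] [IsAlgClosed K] [CharZero K] {V : Type*} [AddCommGroup V]
  [Module K V] [FiniteDimensional K V]
  {ω : LinearMap.BilinForm K V} {G : Set (Module.End K V)}
  {T : Set (Module.End K V ≃+* Module.End K V)} {p0 ε ε₁ ε₂ : Module.End K V}
  {W W₁ W₂ : Submodule K V}

/-- The classification of a block, with the number of eigenvalues. -/
theorem classifyFS (U : MStr ω G T p0) (hε : Bl (AA G T p0) ε)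
    (hW : Irr (AA G T p0 : Set (Module.End K V)) W) (hWε : InB ε W)
    (hns : ∀ p ∈ SC G T p0, p * ε ≠ 0 ∧ p * ε ≠ ε) (hs : Smp (Lb G T p0 ε))
    {N h : Module.End K V} (hp : Plc G T p0 N h) (hN0 : N * ε ≠ 0)
    {p : Module.End K V} (hpS : p ∈ SC G T p0) :
    (∃ e, SgB ω (AA G T p0) ε W e ∧ ExcFS (finrank K W) e
      (min (MTP.rk (Rw W p)) (finrank K W - MTP.rk (Rw W p)))
      (MTP.rk (Rw W N)) (nev (Rw W N) (Rw W h))) ∨
    (FullB ω G T p0 ε ∧ TyF ω G T p0 ε W) := by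
  obtain ⟨hNN, hNA, hN1, -⟩ := plc_lb U hp hε
  obtain ⟨a1, ⟨σ1, a2⟩, ⟨τ1, a3⟩, a4⟩ := plc_rw U hp hW
  have hN2 : (N * ε) * (N * ε) = 0 := by
    calc (N * ε) * (N * ε) = N * (ε * N) * ε := by simp only [mul_assoc]
      _ = (N * N) * (ε * ε) := by rw [hε.cen _ hNA]; simp only [mul_assoc]
      _ = 0 := by rw [hNN, zero_mul]
  have hf := nev_facts a1 a4 a2 a3
  rcases classifyS U hε hW hWε hns hs hN1 hN2 hN0 hpS with ⟨e, hSg, hE⟩ | ⟨hF, hT⟩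
  · rw [rw_mul' U hW hWε hε.mem hNA] at hE
    by_cases hk : nev (Rw W N) (Rw W h) ≤ 2
    · exact Or.inl ⟨e, hSg, excFS_of hE hk hf.1⟩
    right
    have hF : FullB ω G T p0 ε := (full_or U hp hε hW hWε hns hs hN0).resolve_right hk
    refine ⟨hF, ?_⟩
    have hdim := exc_dim (exc_of_S hE)
    by_cases hsd : SD ω ε
    · obtain ⟨b, hb, hsa⟩ := U.sd_form hε hsd hW hWε
      rcases hsa with hsy | halt
      · have hev := even_of_sd U hε hW hWε hns hsd hb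
        rcases hdim with ⟨h8, hr⟩ | h10
        · right
          refine ⟨⟨hsd, h8, b, hb, hsy⟩, N, h, hp, ?_, by omega⟩
          rcases hr with hr | hr
          · exact hr
          · exfalso
            have := hf.1.mpr (by rw [hr, h8])
            omega
        · exact Or.inl (Or.inr (Or.inr ⟨hsd, hev, Or.inr h10, b, hb, hsy⟩))
      · exact Or.inl (Or.inr (Or.inl ⟨hsd, b, hb, halt⟩))
    · exact Or.inl (Or.inl ⟨hsd, by omega⟩)
  · exact Or.inr ⟨hF, Or.inl hT⟩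

end

lemma ne_of_ns {K : Type*} [Field K] {V : Type*} [AddCommGroup V] [Module K V]
    {p ε : Module.End K V} (h : p * ε ≠ 0 ∧ p * ε ≠ ε) : p ≠ 0 ∧ p ≠ 1 :=
  ⟨fun h0 => h.1 (by rw [h0, zero_mul]), fun h1 => h.2 (by rw [h1, one_mul])⟩

variable {K : Type*} [Field K] [IsAlgClosed K] [CharZero K] {m : Type*} [Fintype m]
  [DecidableEq m] {Γ : Subgroup (Equiv.Perm (m → K))} {J : Matrix m m K}
  {G : Subgroup (Matrix.GeneralLinearGroup m K)} {π : Matrix m m K} {W : Submodule K (m → K)}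

/-- **The group theorem.** -/
theorem containsDerS (D : IsStrongMTPair Γ J G π) (hr : IsReductiveRep G)
    {R : Set (ℕ × ℤ × ℕ × ℕ × ℕ)}
    (hR : ∀ D e s r k, (D, e, s, r, k) ∈ R → 0 < r) (hexc : ∀ D e s r k, (D, e, s, r, k) ∈ R →
      ¬ ExcFS D e s r k)
    (htwo : (4, 0, 1, 1, 1) ∈ R → (6, 1, 3, 2, 1) ∉ R ∧ (6, 1, 3, 2, 2) ∉ R)
    (h : ∀ W, IsIrrSub G W → ∃ e s r k, HasSign J G W e ∧ BadAt Γ G π W r ∧
      HasSig Γ G π W s ∧ HasFrob Γ G π W r k ∧ (finrank K W, e, s, r, k) ∈ R) :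
    ContainsDer J G := by
  rcases isEmpty_or_nonempty m with hm | hm
  · intro g _ _ _
    have : g = 1 := by
      apply Units.ext
      apply Matrix.ext
      intro i
      exact (hm.false i).elim
    rw [this]; exact G.one_mem
  have U := mstr D hr
  -- all blocks are good
  have hgood : ∀ ε, Bl (AA (GE G) (TE Γ) (Matrix.toLin' π)) ε → ∀ W,
      Irr (AA (GE G) (TE Γ) (Matrix.toLin' π) : Set (Module.End K (m → K))) W → InB ε W →
      Gd (fJ J) (GE G) (TE Γ) (Matrix.toLin' π) ε W ∧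
      TyF (fJ J) (GE G) (TE Γ) (Matrix.toLin' π) ε W := by
    intro ε hε W hW hWε
    obtain ⟨e, s, r, k, h0, h1, h2, h3, h4⟩ := h W (irr_sub.mp (U.irr_iff.mpr hW))
    obtain ⟨hns, hsm, hne, ⟨P, hP, hPs⟩, N, h', hpl, hN0, e1, e2⟩ :=
      data D hr hε hW hWε (hR _ _ _ _ _ h4) h1 h2 h3
    rcases classifyFS U hε hW hWε hns hsm hpl hN0 hP with ⟨e', h7, h5⟩ | ⟨h5, h6⟩
    · rw [hPs, e1, e2] at h5
      have hee : e = e' := sign_eq' D hr (ne_of_ns (hns _ U.p0_mem)).1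
        (ne_of_ns (hns _ U.p0_mem)).2 hW hε hWε h0 h7
      rw [← hee] at h5
      exact absurd h5 (hexc _ _ _ _ _ h4)
    · exact ⟨⟨hε, hW, hWε, hsm, hne, hns, h5⟩, h6⟩
  have hgood' : ∀ ε, Bl (AA (GE G) (TE Γ) (Matrix.toLin' π)) ε → ∃ W,
      Gd (fJ J) (GE G) (TE Γ) (Matrix.toLin' π) ε W ∧
      TyF (fJ J) (GE G) (TE Γ) (Matrix.toLin' π) ε W := by
    intro ε hε
    obtain ⟨W, hW, hWε⟩ := hε.exists_irr
    exact ⟨W, hgood ε hε W hW hWε⟩
  -- no special pairs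
  have hnospc : ∀ ε₁ ε₂ W₁ W₂, Gd (fJ J) (GE G) (TE Γ) (Matrix.toLin' π) ε₁ W₁ →
      Gd (fJ J) (GE G) (TE Γ) (Matrix.toLin' π) ε₂ W₂ → TyU (fJ J) ε₁ W₁ →
      TyO (fJ J) (AA (GE G) (TE Γ) (Matrix.toLin' π)) ε₂ W₂ →
      Good.Lnk (GE G) (TE Γ) (Matrix.toLin' π) ε₁ ε₂ →
      ¬ Good.Spc (GE G) (TE Γ) (Matrix.toLin' π) W₁ W₂ := by
    intro ε₁ ε₂ W₁ W₂ g1 g2 hU hO hl hs
    obtain ⟨x1, s1, r1, k1, a0, a1, a2, a3, a4⟩ := h W₁ (irr_sub.mp (U.irr_iff.mpr g1.irr))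
    obtain ⟨x2, s2, r2, k2, b0, b1, b2, b3, b4⟩ := h W₂ (irr_sub.mp (U.irr_iff.mpr g2.irr))
    have hns := g1.ns _ U.p0_mem
    have hx1 : x1 = 0 := sign_eq' D hr (ne_of_ns hns).1 (ne_of_ns hns).2 g1.irr g1.bl g1.inb a0
      (Or.inl ⟨rfl, hU.1⟩)
    have hx2 : x2 = 1 := by
      obtain ⟨hsd, -, -, b, hF, hsy⟩ := hO
      exact sign_eq' D hr (ne_of_ns hns).1 (ne_of_ns hns).2 g2.irr g2.bl g2.inb b0
        (Or.inr ⟨hsd, b, hF, Or.inl ⟨rfl, hsy⟩⟩)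
    obtain ⟨rfl, rfl, rfl, rfl⟩ := spc_ranks D hr (g1.good (Or.inl hU))
      (g2.good (Or.inr (Or.inr hO))) hs hO (hR _ _ _ _ _ a4) (hR _ _ _ _ _ b4) a1 a2 b1 b2
    obtain ⟨-, -, -, -, N1, h1, p1, -, c1, c2⟩ :=
      data D hr g1.bl g1.irr g1.inb (hR _ _ _ _ _ a4) a1 a2 a3
    obtain ⟨-, -, -, -, N2, h2, p2, -, d1, d2⟩ :=
      data D hr g2.bl g2.irr g2.inb (hR _ _ _ _ _ b4) b1 b2 b3
    have hk1 := nev_four U g1 g2 hl hU hO hs.1 hs.2.1 p1 c1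
    have hk2 := nev_six U g2.irr p2 hs.2.1 d1
    rw [c2] at hk1
    rw [d2] at hk2
    rw [hs.1, hk1, hx1] at a4
    rw [hs.2.1, hx2] at b4
    obtain ⟨h3, h4⟩ := htwo a4
    rcases hk2 with h5 | h5 <;> rw [h5] at b4
    · exact h3 b4
    · exact h4 b4
  have hpair : ∀ ε₁ ε₂, Bl (AA (GE G) (TE Γ) (Matrix.toLin' π)) ε₁ →
      Bl (AA (GE G) (TE Γ) (Matrix.toLin' π)) ε₂ → ε₁ ≠ ε₂ → ¬ IsAdj (fJ J) ε₁ ε₂ →
      ∃ x ∈ ML (GE G) (TE Γ) (Matrix.toLin' π), x * ε₁ ≠ 0 ∧ x * ε₂ = 0 := by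
    intro ε₁ ε₂ h1 h2 hne hna
    obtain ⟨W₁, g1, t1⟩ := hgood' ε₁ h1
    obtain ⟨W₂, g2, t2⟩ := hgood' ε₂ h2
    by_contra hcon
    push Not at hcon
    have hl : Good.Lnk (GE G) (TE Γ) (Matrix.toLin' π) ε₁ ε₂ := by
      intro x hx hx2
      by_contra hx1
      exact hcon x hx hx1 hx2
    exact not_lnk U g1 g2 hne hna t1 t2 (fun u1 u2 l => hnospc _ _ _ _ g1 g2 u1 u2 l)
      (fun u1 u2 l => hnospc _ _ _ _ g2 g1 u1 u2 l) hl
  have hsm := fun ε hε => (hgood' ε hε).choose_spec.1.smp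
  have hne := fun ε hε => (hgood' ε hε).choose_spec.1.ne
  have hfu := fun ε hε => (hgood' ε hε).choose_spec.1.full
  have hM := U.fullM hsm hne hfu hpair
  intro g hgJ hgT hgdet
  have hgA : Matrix.toLin' (g : Matrix m m K) ∈ AA (GE G) (TE Γ) (Matrix.toLin' π) := by
    apply U.ssA.mem_of_comm
    intro X hX
    have h1 := hgT (LinearMap.toMatrix' X) (by
      intro g' hg'
      have h2 := hX _ (U.g_mem ⟨g', hg', rfl⟩)
      have h3 := congrArg LinearMap.toMatrix' h2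
      rwa [LinearMap.toMatrix'_mul, LinearMap.toMatrix'_mul, LinearMap.toMatrix'_toLin'] at h3)
    have h4 := congrArg Matrix.toLin' h1
    rw [GA.toLin_mul, GA.toLin_mul, Matrix.toLin'_toMatrix'] at h4
    exact h4.symm
  have hgi : ∀ v w, fJ J (Matrix.toLin' (g : Matrix m m K) v)
      (Matrix.toLin' (g : Matrix m m K) w) = fJ J v w := by
    intro v w
    rw [gb_fJ, gb_fJ, Matrix.toLin'_apply, Matrix.toLin'_apply]
    have e : ((g : Matrix m m K).mulVec v) ⬝ᵥ J.mulVec ((g : Matrix m m K).mulVec w) =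
        v ⬝ᵥ ((g : Matrix m m K).transpose * J * g).mulVec w := by
      rw [← Matrix.mulVec_mulVec, ← Matrix.mulVec_mulVec, Matrix.dotProduct_mulVec v,
        Matrix.vecMul_transpose]
    rw [e, hgJ]
  have hmem := mem_of_full U hM (fun ε hε => by
      obtain ⟨W, hW, hT⟩ := hgood' ε hε
      refine ⟨W, hW.irr, hW.inb, ?_⟩
      rcases hT with (hT | hT | hT) | ⟨hT, -⟩
      · exact Or.inl hT
      · exact Or.inr (Or.inl hT)
      · exact Or.inr (Or.inr (Or.inl hT))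
      · exact Or.inr (Or.inr (Or.inr hT)))
    (fun x hx hxx => exp_mem D hr (U.ml_der hsm hne hfu hpair hx) hxx) hgA hgi (by
      intro W hW
      have hst : ∀ v ∈ W, (g : Matrix m m K).mulVecLin v ∈ W := by
        intro v hv
        exact hW.st _ hgA v hv
      have h1 := hgdet W (irr_sub.mp (U.irr_iff.mpr hW)) hst
      have h2 : Rw W (Matrix.toLin' (g : Matrix m m K)) =
          (g : Matrix m m K).mulVecLin.restrict hst := by
        ext w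
        rw [Rw_coe (x := Matrix.toLin' (g : Matrix m m K)) (fun v hv => hst v hv)]
        rfl
      rw [h2]
      exact h1)
  obtain ⟨g', hg', he⟩ := hmem
  have : g = g' := by
    apply Units.ext
    apply Matrix.toLin'.injective
    exact he
  rw [this]; exact hg'

/-! ### The criterion -/

/-- **The exact criterion.** -/
theorem criterionS {K : Type*} [Field K] [IsAlgClosed K] [CharZero K]
    (R : Set (ℕ × ℤ × ℕ × ℕ × ℕ)) (hR : ∀ D e s r k, (D, e, s, r, k) ∈ R → 0 < r) :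
    (∀ (m : Type) [Fintype m] [DecidableEq m] (Γ : Subgroup (Equiv.Perm (m → K)))
      (J : Matrix m m K) (G : Subgroup (Matrix.GeneralLinearGroup m K)) (π : Matrix m m K),
      IsStrongMTPair Γ J G π → IsReductiveRep G →
      (∀ W, IsIrrSub G W → ∃ e s r k, HasSign J G W e ∧ BadAt Γ G π W r ∧
        HasSig Γ G π W s ∧ HasFrob Γ G π W r k ∧ (finrank K W, e, s, r, k) ∈ R) →
      ContainsDer J G) ↔
    (∀ n j k, 5 ≤ n → 2 ≤ j → 2 * j ≤ n → k = 1 ∨ k = 2 →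
      (n.choose j, if 2 * j = n then (-1) ^ j else 0, (n - 1).choose (j - 1),
        (n - 2).choose (j - 1), k) ∉ R) ∧
    (∀ n e r k, (e = -1 ∧ 5 ≤ n ∧ (n % 4 = 1 ∨ n % 4 = 2)) ∨
        (e = 1 ∧ 3 ≤ n ∧ (n % 4 = 0 ∨ n % 4 = 3)) ∨ (e = 0 ∧ 4 ≤ n ∧ Even n) →
      (r = 2 ^ (n - 2) ∧ (k = 1 ∨ k = 2)) ∨ (r = 2 ^ (n - 1) ∧ k = 0) →
      (2 ^ n, e, 2 ^ (n - 1), r, k) ∉ R) ∧
    ((4, 0, 1, 1, 1) ∈ R → (6, 1, 3, 2, 1) ∉ R ∧ (6, 1, 3, 2, 2) ∉ R) := by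
  have hex : ∀ {D : ℕ} {e : ℤ} {s r k : ℕ}, ExcFS D e s r k → (D, e, s, r, k) ∈ R →
      (∀ (m : Type) [Fintype m] [DecidableEq m] (Γ : Subgroup (Equiv.Perm (m → K)))
      (J : Matrix m m K) (G : Subgroup (Matrix.GeneralLinearGroup m K)) (π : Matrix m m K),
      IsStrongMTPair Γ J G π → IsReductiveRep G →
      (∀ W, IsIrrSub G W → ∃ e s r k, HasSign J G W e ∧ BadAt Γ G π W r ∧
        HasSig Γ G π W s ∧ HasFrob Γ G π W r k ∧ (finrank K W, e, s, r, k) ∈ R) →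
      ContainsDer J G) → False := by
    intro D e s r k hE hmem h
    obtain ⟨m, _, _, J, G, π, h1, h2, h3, h4⟩ := hasExFS_of (K := K) hE
    apply h4
    apply h m ⊥ J G π h1 h2
    intro W hW
    obtain ⟨h5, h6, h7, h8, h9⟩ := h3 W hW
    exact ⟨e, s, r, k, h6, h8, h7, h9, by rw [h5]; exact hmem⟩
  have hpow : ∀ n, 3 ≤ n → 2 ^ n = 4 * 2 ^ (n - 2) ∧ 2 ^ n = 2 * 2 ^ (n - 1) := by
    intro n hn
    obtain ⟨j, rfl⟩ : ∃ j, n = j + 2 := ⟨n - 2, by omega⟩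
    have e1 : j + 2 - 2 = j := by omega
    have e2 : j + 2 - 1 = j + 1 := by omega
    rw [e1, e2]
    exact ⟨by ring, by ring⟩
  constructor
  · intro h
    refine ⟨fun n j k hn hj hjn hk hmem => hex (Or.inl ⟨n, j, hn, hj, hjn, rfl, rfl, rfl, rfl,
        hk⟩) hmem h, fun n e r k hn hr hmem => ?_, ?_⟩
    · have hn3 : 3 ≤ n := by omega
      obtain ⟨p1, p2⟩ := hpow n hn3
      refine hex (Or.inr ⟨?_, p2.symm, ?_⟩) hmem h
      · rcases hn with ⟨a, b, c⟩ | ⟨a, b, c⟩ | ⟨a, b, c⟩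
        · exact Or.inl ⟨a, n, b, c, rfl⟩
        · exact Or.inr (Or.inl ⟨a, n, b, c, rfl⟩)
        · exact Or.inr (Or.inr ⟨a, n, b, c, rfl⟩)
      · rcases hr with ⟨rfl, hk⟩ | ⟨rfl, hk⟩
        · exact Or.inl ⟨p1.symm, hk⟩
        · exact Or.inr ⟨p2.symm, hk⟩
    · intro h4
      have key : ∀ k, (k = 1 ∨ k = 2) → (6, 1, 3, 2, k) ∉ R := by
        intro k hk h6
        obtain ⟨m, _, _, J, G, π, h1, h2, h3, h5⟩ := exFS_four K k hk
        apply h5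
        apply h m ⊥ J G π h1 h2
        intro W hW
        rcases h3 W hW with ⟨a1, a0, a2, a3, a4⟩ | ⟨a1, a0, a2, a3, a4⟩
        · exact ⟨1, 3, 2, k, a0, a3, a2, a4, by rw [a1]; exact h6⟩
        · exact ⟨0, 1, 1, 1, a0, a3, a2, a4, by rw [a1]; exact h4⟩
      exact ⟨key 1 (Or.inl rfl), key 2 (Or.inr rfl)⟩
  · rintro ⟨h1, h2, h3⟩ m _ _ Γ J G π D hr h
    refine containsDerS D hr hR ?_ h3 h
    rintro d e s r k hmem (⟨n, j, a1, a2, a3, rfl, rfl, rfl, rfl, hk⟩ | ⟨hsp, hs, hk⟩)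
    · exact h1 n j k a1 a2 a3 hk hmem
    · have key : ∀ n, 3 ≤ n → d = 2 ^ n → s = 2 ^ (n - 1) ∧
          ((r = 2 ^ (n - 2) ∧ (k = 1 ∨ k = 2)) ∨ (r = 2 ^ (n - 1) ∧ k = 0)) := by
        intro n hn hd
        obtain ⟨p1, p2⟩ := hpow n hn
        refine ⟨by omega, ?_⟩
        rcases hk with ⟨hk, hk'⟩ | ⟨hk, hk'⟩
        · exact Or.inl ⟨by omega, hk'⟩
        · exact Or.inr ⟨by omega, hk'⟩
      rcases hsp with ⟨ha, n, a1, a2, hd⟩ | ⟨ha, n, a1, a2, hd⟩ | ⟨ha, n, a1, a2, hd⟩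
      · obtain ⟨k1, k2⟩ := key n (by omega) hd
        refine h2 n e r k (Or.inl ⟨ha, a1, a2⟩) k2 ?_
        rw [← hd, ← k1]; exact hmem
      · obtain ⟨k1, k2⟩ := key n a1 hd
        refine h2 n e r k (Or.inr (Or.inl ⟨ha, a1, a2⟩)) k2 ?_
        rw [← hd, ← k1]; exact hmem
      · obtain ⟨k1, k2⟩ := key n (by omega) hd
        refine h2 n e r k (Or.inr (Or.inr ⟨ha, a1, a2⟩)) k2 ?_
        rw [← hd, ← k1]; exact hmem

end FR
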