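import Pool.Agent.Helper43.RR.SG

/-!
The sign of a subrepresentation (matrices) is the sign of its block, for any cocharacter which is
not central.
-/

set_option linter.unusedSimpArgs false
set_option linter.unusedSectionVars false
set_option linter.unusedVariables false

open Module MTPairs

namespace FR

open AV MTP UN AV.SGN

/-- The conjugates of an idempotent different from zero and one are different from zero and
one. -/
lemma sc_ne {K : Type*} [Field K] {V : Type*} [AddCommGroup V] [Module K V]
    [FiniteDimensional K V] {ω : LinearMap.BilinForm K V} {G : Set (Module.End K V)}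
    {T : Set (Module.End K V ≃+* Module.End K V)} {p0 : Module.End K V}
    (D : MStr ω G T p0) (h0 : p0 ≠ 0) (h1 : p0 ≠ 1) {p : Module.End K V}
    (hp : p ∈ SC G T p0) : p ≠ 0 ∧ p ≠ 1 := by
  obtain ⟨τ, hτ, g, hg, h, hh, hgh, hhg, rfl⟩ := hp
  have key : h * (g * τ p0 * h) * g = τ p0 := by
    calc h * (g * τ p0 * h) * g = (h * g) * τ p0 * (h * g) := by simp only [mul_assoc]
      _ = τ p0 := by rw [hhg, one_mul, mul_one]
  constructor
  · intro h2
    rw [h2, mul_zero, zero_mul] at key
    apply h0
    apply τ.injective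
    rw [map_zero]; exact key.symm
  · intro h2
    rw [h2, mul_one, hhg] at key
    apply h1
    apply τ.injective
    rw [map_one]; exact key.symm

variable {K : Type*} [Field K] [IsAlgClosed K] [CharZero K] {m : Type*} [Fintype m]
  [DecidableEq m] {Γ : Subgroup (Equiv.Perm (m → K))} {J : Matrix m m K}
  {G : Subgroup (Matrix.GeneralLinearGroup m K)} {π : Matrix m m K} {W : Submodule K (m → K)}

theorem sign_eq' (D : IsStrongMTPair Γ J G π) (hr : IsReductiveRep G) [Nonempty m]
    (hπ0 : Matrix.toLin' π ≠ 0) (hπ1 : Matrix.toLin' π ≠ 1) {ε : Module.End K (m → K)}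
    (hW : Irr (AA (GE G) (TE Γ) (Matrix.toLin' π) : Set (Module.End K (m → K))) W)
    (hε : Bl (AA (GE G) (TE Γ) (Matrix.toLin' π)) ε) (hWε : InB ε W) {e e' : ℤ}
    (hs : HasSign J G W e) (hb : SgB (fJ J) (AA (GE G) (TE Γ) (Matrix.toLin' π)) ε W e') :
    e = e' := by
  have M := mstr D hr
  have hadj : ∀ p ∈ SC (GE G) (TE Γ) (Matrix.toLin' π), IsAdj (fJ J) p (1 - p) := by
    intro p hp
    obtain ⟨h0, h1⟩ := sc_ne M hπ0 hπ1 hp
    rcases M.c2 hp with h | h | h
    · exact h
    · exact absurd h h0
    · exact absurd h h1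
  have key : ∀ B, IsFormOn J G W B → ∀ a ∈ AA (GE G) (TE Γ) (Matrix.toLin' π),
      ∀ a' ∈ AA (GE G) (TE Γ) (Matrix.toLin' π), IsAdj (fJ J) a a' →
      IsAdj ((fJ B).compl₁₂ W.subtype W.subtype) (Rw W a) (Rw W a') := by
    intro B hB a ha a' _ haa
    exact adjW' M hW hadj _ (SGN.form_adj D hr hW hadj hB) ha haa
  rcases hb with ⟨rfl, hnsd⟩ | ⟨hsd, b, hF, hsign⟩
  · rcases hs with ⟨rfl, -⟩ | ⟨B, hB, -⟩
    · rfl
    · exfalso
      obtain ⟨v, hv, w, hw, hvw⟩ := hB.1
      have h := no_form M hε hnsd hW hWε _ (key B hB) ⟨v, hv⟩ ⟨w, hw⟩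
      apply hvw
      rw [← GA.fJ_apply]
      exact h
  · have hb0 : ∃ v w, b v w ≠ 0 := by
      by_contra hcon
      push Not at hcon
      obtain ⟨w₀, hw₀, hw₀0⟩ := W.ne_bot_iff.mp hW.ne
      exact hw₀0 (congrArg Subtype.val (hF.nd.1 ⟨w₀, hw₀⟩ (hcon _)))
    rcases hs with ⟨rfl, hno⟩ | ⟨B, hB, hBs⟩
    · exfalso
      -- the form `b` gives a matrix
      set B : Matrix m m K := LinearMap.BilinForm.toMatrix' (b.compl₁₂ (prj W) (prj W)) with hBd
      have hfB : ∀ v w : m → K, v ⬝ᵥ B.mulVec w = b (prj W v) (prj W w) := by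
        intro v w
        rw [← GA.fJ_apply]
        unfold fJ
        rw [hBd, Matrix.toBilin'_toMatrix']
        rfl
      apply hno B
      constructor
      · obtain ⟨v, w, hvw⟩ := hb0
        refine ⟨v, v.2, w, w.2, ?_⟩
        rw [hfB, prj_coe, prj_coe]
        exact hvw
      · intro g hg c hc v hv w hw
        have hgE := GA.toLin_mem hg
        have hgA := M.g_mem hgE
        have hgiA := M.g_mem (GA.toLin_mem (G.inv_mem hg))
        have hadjg : IsAdj (fJ J) (Matrix.toLin' (g : Matrix m m K))
            (c • Matrix.toLin' ((g⁻¹ : Matrix.GeneralLinearGroup m K) : Matrix m m K)) := by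
          have hJ : ∀ v w : m → K, fJ J (Matrix.toLin' (g : Matrix m m K) v)
              (Matrix.toLin' (g : Matrix m m K) w) = c * fJ J v w := by
            intro v w
            rw [GA.fJ_apply, GA.fJ_apply, Matrix.toLin'_apply, Matrix.toLin'_apply]
            have e : ((g : Matrix m m K).mulVec v) ⬝ᵥ J.mulVec ((g : Matrix m m K).mulVec w) =
                v ⬝ᵥ ((g : Matrix m m K).transpose * J * g).mulVec w := by
              rw [← Matrix.mulVec_mulVec, ← Matrix.mulVec_mulVec, Matrix.dotProduct_mulVec v,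
                Matrix.vecMul_transpose]
            rw [e, hc, Matrix.smul_mulVec, dotProduct_smul, smul_eq_mul]
          intro v w
          have h1 := hJ v (Matrix.toLin' ((g⁻¹ : Matrix.GeneralLinearGroup m K) :
            Matrix m m K) w)
          have h2 : Matrix.toLin' (g : Matrix m m K) (Matrix.toLin'
              ((g⁻¹ : Matrix.GeneralLinearGroup m K) : Matrix m m K) w) = w :=
            LinearMap.congr_fun (GA.toLin_mul_inv g) w
          rw [h2] at h1
          rw [h1, LinearMap.smul_apply, map_smul, smul_eq_mul]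
        have h3 := hF.adj _ hgA _ ((AA (GE G) (TE Γ) (Matrix.toLin' π)).smul_mem hgiA c) hadjg
        have hRg : ∀ v : m → K, (hv : v ∈ W) →
            prj W ((g : Matrix m m K).mulVec v) = Rw W (Matrix.toLin' (g : Matrix m m K)) ⟨v, hv⟩ := by
          intro v hv
          rfl
        rw [hfB, hfB, hRg v hv, hRg w hw, h3, map_smul]
        have h4 : Rw W (Matrix.toLin' ((g⁻¹ : Matrix.GeneralLinearGroup m K) : Matrix m m K))
            (Rw W (Matrix.toLin' (g : Matrix m m K)) ⟨w, hw⟩) = ⟨w, hw⟩ := by
          rw [← Module.End.mul_apply, ← Rw_mul' hW hgiA hgA, GA.toLin_inv_mul, Rw_one]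
          rfl
        rw [LinearMap.smul_apply, h4, map_smul, smul_eq_mul]
        have h5 : prj W v = ⟨v, hv⟩ := prj_coe W ⟨v, hv⟩
        have h6 : prj W w = ⟨w, hw⟩ := prj_coe W ⟨w, hw⟩
        rw [h5, h6]
    · obtain ⟨c, hc⟩ := uniq M hW b _ hF.nd hF.adj (key B hB)
      have hc0 : c ≠ 0 := by
        rintro rfl
        obtain ⟨v, hv, w, hw, hvw⟩ := hB.1
        apply hvw
        have h := hc ⟨v, hv⟩ ⟨w, hw⟩
        rw [zero_mul] at h
        rw [← GA.fJ_apply]
        exact h
      have hbe : ∀ v w, b v w = (e : K) * b w v := by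
        intro v w
        have h1 := hBs v v.2 w w.2
        rw [← GA.fJ_apply, ← GA.fJ_apply] at h1
        have h2 : fJ B v w = c * b v w := hc v w
        have h3 : fJ B w v = c * b w v := hc w v
        rw [h2, h3] at h1
        apply mul_left_cancel₀ hc0
        linear_combination h1
      obtain ⟨v, w, hvw⟩ := hb0
      rcases hsign with ⟨rfl, hsy⟩ | ⟨rfl, halt⟩
      · have h1 := hbe v w
        rw [hsy w v] at h1
        have h2 : ((e : K) - 1) * b v w = 0 := by linear_combination -h1
        have h3 := (mul_eq_zero.mp h2).resolve_right hvw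
        have h4 : (e : K) = ((1 : ℤ) : K) := by rw [Int.cast_one]; exact sub_eq_zero.mp h3
        exact Int.cast_injective h4
      · have h1 := hbe v w
        have h5 : b w v = - b v w := (LinearMap.IsAlt.neg halt v w).symm
        rw [h5] at h1
        have h2 : ((e : K) + 1) * b v w = 0 := by linear_combination h1
        have h3 := (mul_eq_zero.mp h2).resolve_right hvw
        have h4 : (e : K) = ((-1 : ℤ) : K) := by
          rw [Int.cast_neg, Int.cast_one]; exact eq_neg_of_add_eq_zero_left h3
        exact Int.cast_injective h4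

end FR
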