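import Pool.Agent.Helper43.FRS.ShW
import Pool.Agent.Helper78.AV.SH4

/-!
Sharpness: the special linear group of rank four, with signs.
-/

set_option linter.unusedSimpArgs false
set_option linter.unusedSectionVars false
set_option linter.unusedVariables false

open Module MTPairs

namespace FR.SP

open MTP UN AV TR AV.SM

section gen
variable {K : Type*} [Field K] {n : Type*} [Fintype n] [DecidableEq n]

/-- The multipliers of a second form. -/
lemma mult_gen {J B E : Matrix n n K} {Λ : Set (Matrix n n K)} (hdet : (J + B).det ≠ 0)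
    (hi : ∀ π ∈ Λ, π * π = π) (hJ : ∀ π ∈ Λ, π.transpose * J + J * π = J)
    (hB : ∀ π ∈ Λ, π.transpose * B + B * π = B)
    (hE : ∀ g ∈ GenG Λ, (g : Matrix n n K) * E = E * (g : Matrix n n K))
    (hEB : E.transpose * B * E = B) {i j : n} (hij : J i j ≠ 0) (hcol : ∀ l, E l j = 0)
    {g : Matrix.GeneralLinearGroup n K} (hg : g ∈ GenG Λ) {c : K}
    (hc : (g : Matrix n n K).transpose * J * (g : Matrix n n K) = c • J) :
    (g : Matrix n n K).transpose * B * (g : Matrix n n K) = c • B := by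
  have hle : GenG Λ ≤ Sim (J + B) := by
    apply GenG_le (Sim_closed hdet)
    intro π hπ
    have hi := hi π hπ
    refine ⟨hi, fun t ht => ?_⟩
    refine ⟨⟨t • π + (1 - π), t⁻¹ • π + (1 - π), torus_mul hi ht, ?_⟩, ?_, rfl⟩
    · have := torus_mul hi (inv_ne_zero ht)
      rwa [inv_inv] at this
    · refine ⟨t, ht, torus_sim hi ?_ t⟩
      have e1 := hJ π hπ
      have e2 := hB π hπ
      calc π.transpose * (J + B) + (J + B) * π =
          (π.transpose * J + J * π) + (π.transpose * B + B * π) := by noncomm_ring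
        _ = _ := by rw [e1, e2]
  obtain ⟨d, -, hd⟩ := hle hg
  have hz : ∀ X : Matrix n n K, (X * E) i j = 0 := by
    intro X
    rw [Matrix.mul_apply]
    exact Finset.sum_eq_zero fun l _ => by rw [hcol, mul_zero]
  have h1 : B i j = 0 := by rw [← hEB]; exact hz _
  have h2 : ((g : Matrix n n K).transpose * B * (g : Matrix n n K)) i j = 0 := by
    have e : (g : Matrix n n K).transpose * B * (g : Matrix n n K) =
        E.transpose * ((g : Matrix n n K).transpose * B * (g : Matrix n n K)) * E := by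
      have h3 := hE g hg
      calc (g : Matrix n n K).transpose * B * (g : Matrix n n K) =
          (g : Matrix n n K).transpose * (E.transpose * B * E) * (g : Matrix n n K) := by
            rw [hEB]
        _ = (E * (g : Matrix n n K)).transpose * B * (E * (g : Matrix n n K)) := by
            rw [Matrix.transpose_mul]; simp only [mul_assoc]
        _ = ((g : Matrix n n K) * E).transpose * B * ((g : Matrix n n K) * E) := by rw [h3]
        _ = _ := by rw [Matrix.transpose_mul]; simp only [mul_assoc]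
    rw [e]; exact hz _
  rw [mul_add, add_mul, hc, smul_add] at hd
  have h4 := congrFun (congrFun hd i) j
  simp only [Matrix.add_apply, Matrix.smul_apply, h1, h2, smul_eq_mul, mul_zero, add_zero] at h4
  have hcd : c = d := mul_right_cancel₀ hij h4
  rw [hcd] at hd ⊢
  exact add_left_cancel hd

lemma dot_sym {B : Matrix n n K} {e : ℤ} (he : (e : K) * e = 1) (hB : B.transpose = (e : K) • B)
    (v w : n → K) : v ⬝ᵥ B.mulVec w = (e : K) * (w ⬝ᵥ B.mulVec v) := by
  have h1 : w ⬝ᵥ B.mulVec v = v ⬝ᵥ (B.transpose).mulVec w := by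
    rw [Matrix.dotProduct_mulVec, ← Matrix.mulVec_transpose, dotProduct_comm]
  rw [h1, hB, Matrix.smul_mulVec, dotProduct_smul, smul_eq_mul, ← mul_assoc, he, one_mul]

lemma dot_sim {A B g : Matrix n n K} {c : K} (h : g.transpose * B * g = c • A) (v w : n → K) :
    (g.mulVec v) ⬝ᵥ B.mulVec (g.mulVec w) = c * (v ⬝ᵥ A.mulVec w) := by
  have e : (g.mulVec v) ⬝ᵥ B.mulVec (g.mulVec w) = v ⬝ᵥ (g.transpose * B * g).mulVec w := by
    rw [← Matrix.mulVec_mulVec, ← Matrix.mulVec_mulVec, Matrix.dotProduct_mulVec v,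
      Matrix.vecMul_transpose]
  rw [e, h, Matrix.smul_mulVec, dotProduct_smul, smul_eq_mul]

/-- The sign of an irreducible subspace which projects isomorphically to a subspace with a
form. -/
theorem sign_of_form {J B E : Matrix n n K} {Λ : Set (Matrix n n K)} (hdet : (J + B).det ≠ 0)
    (hi : ∀ π ∈ Λ, π * π = π) (hJ : ∀ π ∈ Λ, π.transpose * J + J * π = J)
    (hB : ∀ π ∈ Λ, π.transpose * B + B * π = B)
    (hE : ∀ g ∈ GenG Λ, (g : Matrix n n K) * E = E * (g : Matrix n n K))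
    (hEB : E.transpose * B * E = B) {i j : n} (hij : J i j ≠ 0) (hcol : ∀ l, E l j = 0)
    {e : ℤ} (he : (e : K) * e = 1) (hBt : B.transpose = (e : K) • B)
    {U S : Submodule K (n → K)} (hUS : U.map E.mulVecLin = S)
    (hS : ∃ a ∈ S, ∃ b ∈ S, a ⬝ᵥ B.mulVec b ≠ 0) : HasSign J (GenG Λ) U e := by
  right
  refine ⟨B, ⟨?_, fun g hg c hc v _ w _ => ?_⟩, fun v _ w _ => dot_sym he hBt v w⟩
  · obtain ⟨a, ha, b, hb, hab⟩ := hS
    rw [← hUS] at ha hb
    obtain ⟨u, hu, rfl⟩ := ha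
    obtain ⟨v, hv, rfl⟩ := hb
    refine ⟨u, hu, v, hv, ?_⟩
    intro h0
    apply hab
    rw [Matrix.mulVecLin_apply, Matrix.mulVecLin_apply,
      dot_sim (A := B) (c := 1) (by rw [hEB, one_smul]), h0, mul_zero]
  · exact dot_sim (mult_gen hdet hi hJ hB hE hEB hij hcol hg hc) v w

end gen

open TR.W3 in
/-- No form for weights which are not opposite. -/
lemma no_form_wb {K : Type*} [Field K] {n : Type*} [Fintype n] [DecidableEq n] {ι : Type*}
    [LinearOrder ι] [Fintype ι] {k : ℕ} {W : Submodule K (n → K)} {B : Matrix n n K}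
    {P : ι → Matrix n n K}
    (hkey : ∀ i, ∀ v ∈ W, ∀ w ∈ W, fJ B ((P i).mulVec v) w = fJ B v (w - (P i).mulVec w))
    {f : Ix ι k → (n → K)} (hf : ∀ S, f S ∈ W)
    (hsp : ∀ w ∈ W, ∃ c : Ix ι k → K, w = ∑ S, c S • f S)
    (hact : (∀ i S, (P i).mulVec (f S) = if i ∈ S.1 then f S else 0) ∨
        (∀ i S, (P i).mulVec (f S) = if i ∈ S.1 then 0 else f S))
    (hk : 2 * k ≠ Fintype.card ι) : ∀ v ∈ W, ∀ w ∈ W, fJ B v w = 0 := by
  have hz : ∀ S T, fJ B (f S) (f T) = 0 := by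
    intro S T
    by_contra hne
    have h1 : ∀ i, i ∈ S.1 ↔ i ∉ T.1 := by
      intro i
      have h2 := hkey i _ (hf S) _ (hf T)
      rcases hact with h | h
      · rw [h, h] at h2
        by_cases hi : i ∈ S.1 <;> by_cases hj : i ∈ T.1 <;> simp [hi, hj] at h2 ⊢
        · exact hne h2
        · exact hne h2.symm
      · rw [h, h] at h2
        by_cases hi : i ∈ S.1 <;> by_cases hj : i ∈ T.1 <;> simp [hi, hj] at h2 ⊢
        · exact hne h2.symm
        · exact hne h2
    have h3 : S.1 = (T.1)ᶜ := by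
      ext i
      rw [Finset.mem_compl]
      exact h1 i
    have h4 := congrArg Finset.card h3
    rw [S.2, Finset.card_compl, T.2] at h4
    have h5 : k ≤ Fintype.card ι := by
      have := Finset.card_le_univ S.1
      rwa [S.2] at this
    omega
  intro v hv w hw
  obtain ⟨c, rfl⟩ := hsp v hv
  obtain ⟨d, rfl⟩ := hsp w hw
  rw [map_sum]
  apply Finset.sum_eq_zero
  intro T _
  rw [map_sum, LinearMap.sum_apply]
  apply Finset.sum_eq_zero
  intro S _
  rw [map_smul, map_smul, LinearMap.smul_apply, hz, smul_zero, smul_zero]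

section four
open AV.SH4
open TR.W3 hiding E
variable {K : Type*} [Field K]

/-- The form of the exterior square. -/
def J2 (K : Type*) [Field K] : Matrix A2 A2 K := Jw K 2

lemma J2_t : (J2 K).transpose = J2 K := by
  have h := SW.Jw_transpose' (K := K) (m := 2)
  have e : ((-1 : K) ^ 2) = 1 := by norm_num
  rw [e, one_smul] at h
  exact h

lemma J2_lag {P : Matrix A2 A2 K} (hP : P ∈ Lam K (Fin 4) 2) :
    P.transpose * J2 K + J2 K * P = J2 K := Lam_lag (K := K) (m := 2) P hP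

lemma J2_lag' {P : Matrix A2 A2 K} (hP : P ∈ Lam K (Fin 4) 2) :
    P * J2 K + J2 K * P.transpose = J2 K := SW.Lam_lag' (K := K) (m := 2) hP

lemma J2_ne : ∃ a b : A2 → K, a ⬝ᵥ (J2 K).mulVec b ≠ 0 := by
  refine ⟨Pi.single ⟨{0, 1}, rfl⟩ 1, Pi.single (cp (m := 2) ⟨{0, 1}, rfl⟩) 1, ?_⟩
  rw [Matrix.mulVec_single_one, single_one_dotProduct]
  intro h0
  have h1 : (J2 K).col (cp (m := 2) ⟨{0, 1}, rfl⟩) ⟨{0, 1}, rfl⟩ =
      ep K (n := 4) ({0, 1} : Finset (Fin 4)) := by
    change Jw K 2 ⟨{0, 1}, rfl⟩ (cp (m := 2) ⟨{0, 1}, rfl⟩) = _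
    unfold Jw
    exact if_pos rfl
  have := ep_sq (K := K) (n := 4) ({0, 1} : Finset (Fin 4))
  rw [← h1, h0, mul_zero] at this
  exact zero_ne_one this

lemma Q_t (a : Matrix A1 A1 K) (b : Matrix A2 A2 K) (c : Matrix A1 A1 K) (d : Matrix A2 A2 K) :
    (Q a b c d).transpose = Q a.transpose b.transpose c.transpose d.transpose := by
  unfold Q
  simp [Matrix.fromBlocks_transpose]

lemma cases_LamN {X : Matrix A3 A3 K} (hX : X ∈ LamN (N K)) :
    ∃ a ∈ Lam K (Fin 4) 1, ∃ b ∈ Lam K (Fin 4) 2, UN.W.D X =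
      Q a b (1 - a.transpose) (1 - b.transpose) := by
  rcases hX with ⟨i, rfl⟩ | ⟨i, j, hij, rfl⟩
  · exact ⟨_, Or.inl ⟨i, rfl⟩, _, Or.inl ⟨i, rfl⟩, D_eq i⟩
  · exact ⟨_, Or.inr ⟨i, j, hij, rfl⟩, _, Or.inr ⟨i, j, hij, rfl⟩, D_eq2 i j⟩

lemma det_one_of {X Y : Matrix (A3 ⊕ A3) (A3 ⊕ A3) K} (h : X * Y = 1) : X.det ≠ 0 := by
  intro h0
  have := congrArg Matrix.det h
  rw [Matrix.det_mul, h0, zero_mul, Matrix.det_one] at this
  exact zero_ne_one this

/-- The sign in dimension six. -/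
lemma sign_six [CharZero K] {W : Submodule K (A3 ⊕ A3 → K)} {j : Fin 4} (hj : j = 1 ∨ j = 3)
    (h2 : W.map (E K j).mulVecLin = S K j) : HasSign (UN.W.Jd K A3) (GN (N K)) W 1 := by
  have e1 : (((1 : ℤ) : K)) = 1 := Int.cast_one
  obtain ⟨a, b, hab⟩ := J2_ne (K := K)
  rcases hj with rfl | rfl
  · refine sign_of_form (B := Q 0 (J2 K) 0 0) (E := E K 1) (i := Sum.inl (Sum.inl s1))
      (j := Sum.inr (Sum.inl s1)) ?_ (LamD_idem rel) LamD_lag ?_ (E_com 1) ?_ ?_ ?_
      (by rw [e1, one_mul]) ?_ h2 ?_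
    · refine det_one_of (Y := Matrix.fromBlocks 0 (-1) 1 (Matrix.fromBlocks 0 0 0 (J2 K))) ?_
      rw [UN.W.Jd, Q, Matrix.fromBlocks_add, Matrix.fromBlocks_multiply, ← Matrix.fromBlocks_one]
      simp
    · rintro _ ⟨P, hP, rfl⟩
      obtain ⟨a, ha, b, hb, hab⟩ := cases_LamN hP
      rw [hab, Q_t, Q_mul, Q_mul, Q_add]
      simp only [mul_zero, zero_mul, add_zero, Matrix.mul_zero, Matrix.zero_mul]
      rw [J2_lag hb]
    · change (Q 0 1 0 0).transpose * Q 0 (J2 K) 0 0 * Q 0 1 0 0 = _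
      rw [Q_t, Q_mul, Q_mul]
      simp
    · rw [UN.W.Jd, Matrix.fromBlocks_apply₁₂, Matrix.one_apply_eq]
      exact one_ne_zero
    · intro l
      change Q 0 1 0 0 l (Sum.inr (Sum.inl s1)) = 0
      rcases l with (l | l) | (l | l) <;> simp [Q]
    · rw [Q_t, J2_t, e1, one_smul]
      simp
    · refine ⟨in2 K a, ⟨a, rfl⟩, in2 K b, ⟨b, rfl⟩, ?_⟩
      rw [Q_in2]
      have : ∀ a b : A2 → K, in2 K a ⬝ᵥ in2 K b = a ⬝ᵥ b := by
        intro a b
        change UN.W.i1 K A3 (j2 K a) ⬝ᵥ UN.W.i1 K A3 (j2 K b) = _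
        simp [UN.W.i1_apply, j2_apply, dotProduct, Fintype.sum_sum_type]
      rw [this]
      exact hab
  · refine sign_of_form (B := Q 0 0 0 (J2 K)) (E := E K 3) (i := Sum.inr (Sum.inl s1))
      (j := Sum.inl (Sum.inl s1)) ?_ (LamD_idem rel) LamD_lag ?_ (E_com 3) ?_ ?_ ?_
      (by rw [e1, one_mul]) ?_ h2 ?_
    · refine det_one_of (Y := Matrix.fromBlocks (Matrix.fromBlocks 0 0 0 (J2 K)) (-1) 1 0) ?_
      rw [UN.W.Jd, Q, Matrix.fromBlocks_add, Matrix.fromBlocks_multiply, ← Matrix.fromBlocks_one]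
      simp
    · rintro _ ⟨P, hP, rfl⟩
      obtain ⟨a, ha, b, hb, hab⟩ := cases_LamN hP
      rw [hab, Q_t, Q_mul, Q_mul, Q_add]
      simp only [mul_zero, zero_mul, add_zero, Matrix.mul_zero, Matrix.zero_mul,
        Matrix.transpose_sub, Matrix.transpose_one, Matrix.transpose_transpose]
      congr 1
      have h3 := J2_lag' hb
      calc (1 - b) * J2 K + J2 K * (1 - b.transpose) =
          J2 K + J2 K - (b * J2 K + J2 K * b.transpose) := by noncomm_ring
        _ = J2 K := by rw [h3]; abel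
    · change (Q 0 0 0 1).transpose * Q 0 0 0 (J2 K) * Q 0 0 0 1 = _
      rw [Q_t, Q_mul, Q_mul]
      simp
    · rw [UN.W.Jd, Matrix.fromBlocks_apply₂₁, Matrix.neg_apply, Matrix.one_apply_eq]
      exact neg_ne_zero.mpr one_ne_zero
    · intro l
      change Q 0 0 0 1 l (Sum.inl (Sum.inl s1)) = 0
      rcases l with (l | l) | (l | l) <;> simp [Q]
    · rw [Q_t, J2_t, e1, one_smul]
      simp
    · refine ⟨in4 K a, ⟨a, rfl⟩, in4 K b, ⟨b, rfl⟩, ?_⟩
      rw [Q_in4]
      have : ∀ a b : A2 → K, in4 K a ⬝ᵥ in4 K b = a ⬝ᵥ b := by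
        intro a b
        change UN.W.i2 K A3 (j2 K a) ⬝ᵥ UN.W.i2 K A3 (j2 K b) = _
        simp [UN.W.i2_apply, j2_apply, dotProduct, Fintype.sum_sum_type]
      rw [this]
      exact hab

/-- A weight basis from a projection. -/
lemma exists_wb4 {n : Type*} [Fintype n] [DecidableEq n] {U : Submodule K (n → K)}
    {E : Matrix n n K} {inc : (A1 → K) →ₗ[K] (n → K)}
    (hinj : ∀ u ∈ U, E.mulVec u = 0 → u = 0)
    (hmap : U.map E.mulVecLin = LinearMap.range inc) {P : Fin 4 → Matrix n n K}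
    (hPU : ∀ i, ∀ u ∈ U, (P i).mulVec u ∈ U) (hPE : ∀ i, P i * E = E * P i)
    {c : Fin 4 → A1 → K} (hc : ∀ i S, (P i).mulVec (inc (Pi.single S 1)) =
      c i S • inc (Pi.single S 1)) :
    ∃ f : A1 → (n → K), (∀ S, f S ∈ U) ∧ (∀ w ∈ U, ∃ c : A1 → K, w = ∑ S, c S • f S) ∧
      ∀ i S, (P i).mulVec (f S) = c i S • f S := by
  classical
  have hex : ∀ v : A1 → K, ∃ u ∈ U, E.mulVec u = inc v := by
    intro v
    have : inc v ∈ U.map E.mulVecLin := by rw [hmap]; exact ⟨v, rfl⟩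
    obtain ⟨u, hu, h⟩ := this
    exact ⟨u, hu, h⟩
  choose g hg hgE using hex
  refine ⟨fun S => g (Pi.single S 1), fun S => hg _, ?_, ?_⟩
  · intro w hw
    obtain ⟨v, hv⟩ : E.mulVec w ∈ LinearMap.range inc := by
      rw [← hmap]; exact ⟨w, hw, rfl⟩
    refine ⟨v, ?_⟩
    have h1 : w - ∑ S, v S • g (Pi.single S 1) ∈ U :=
      U.sub_mem hw (U.sum_mem fun S _ => U.smul_mem _ (hg _))
    have h2 : E.mulVec (w - ∑ S, v S • g (Pi.single S 1)) = 0 := by
      rw [Matrix.mulVec_sub, Matrix.mulVec_sum, ← hv, sub_eq_zero]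
      have : ∀ S, E.mulVec (v S • g (Pi.single S 1)) = inc (Pi.single S (v S)) := by
        intro S
        rw [Matrix.mulVec_smul, hgE, ← map_smul]
        congr 1
        ext T
        rw [Pi.smul_apply, smul_eq_mul]
        by_cases h : T = S
        · subst h; simp
        · simp [Pi.single_eq_of_ne h]
      simp only [this]
      rw [← map_sum, Finset.univ_sum_single]
    exact sub_eq_zero.mp (hinj _ h1 h2)
  · intro i S
    have h1 : (P i).mulVec (g (Pi.single S 1)) - c i S • g (Pi.single S 1) ∈ U :=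
      U.sub_mem (hPU i _ (hg _)) (U.smul_mem _ (hg _))
    have h2 : E.mulVec ((P i).mulVec (g (Pi.single S 1)) - c i S • g (Pi.single S 1)) = 0 := by
      rw [Matrix.mulVec_sub, Matrix.mulVec_mulVec, ← hPE, ← Matrix.mulVec_mulVec, hgE,
        Matrix.mulVec_smul, hgE, hc, sub_self]
    exact sub_eq_zero.mp (hinj _ h1 h2)

lemma single_act (i : Fin 4) (S : A1) : (M K 1 i i).mulVec (Pi.single S 1) =
    (if i ∈ S.1 then (1 : K) else 0) • (Pi.single S 1 : A1 → K) := by
  ext T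
  rw [SW.diag_mulVec, Pi.smul_apply, smul_eq_mul]
  by_cases h : T = S
  · subst h; split_ifs <;> simp
  · split_ifs <;> simp [Pi.single_eq_of_ne h]

/-- The sign in dimension four. -/
lemma sign_four [CharZero K] {W : Submodule K (A3 ⊕ A3 → K)} (hW : IsIrrSub (GN (N K)) W)
    {j : Fin 4} (hj : j = 0 ∨ j = 2) (h1 : ∀ u ∈ W, (E K j).mulVec u = 0 → u = 0)
    (h2 : W.map (E K j).mulVecLin = S K j) : HasSign (UN.W.Jd K A3) (GN (N K)) W 0 := by
  have hc1 : ∀ i, IsCochar (GN (N K)) (UN.W.D (N K i i)) := fun i =>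
    GN_coch (N := N K) rel (Or.inl ⟨i, rfl⟩)
  have hPU : ∀ i, ∀ u ∈ W, (UN.W.D (N K i i)).mulVec u ∈ W := fun i u hu =>
    mem_U_of_cochar (hc1 i) hW.sub hu
  have hPE : ∀ i, UN.W.D (N K i i) * E K j = E K j * UN.W.D (N K i i) := fun i =>
    (comm_cochar (hc1 i) (T := E K j) (fun g hg => (E_com j g hg).symm)).symm
  left
  refine ⟨rfl, fun B hB => ?_⟩
  have hkey : ∀ i, ∀ v ∈ W, ∀ w ∈ W, fJ B ((UN.W.D (N K i i)).mulVec v) w =
      fJ B v (w - (UN.W.D (N K i i)).mulVec w) := fun i =>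
    SW.form_cochar (hc1 i) (UN.W.D_lag _) hB (hPU i)
  have hcard : 2 * 1 ≠ Fintype.card (Fin 4) := by decide
  obtain ⟨v, hv, w, hw, hvw⟩ := hB.1
  apply hvw
  rw [← GA.fJ_apply]
  rcases hj with rfl | rfl
  · obtain ⟨f, a1, a2, a3⟩ := exists_wb4 (inc := in1 K) (P := fun i => UN.W.D (N K i i)) h1 h2
      hPU hPE (c := fun i S => if i ∈ S.1 then 1 else 0) (by
        intro i S
        rw [D_eq, Q_in1, single_act, map_smul])
    refine no_form_wb (P := fun i => UN.W.D (N K i i)) hkey a1 a2 (Or.inl ?_) hcard v hv w hw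
    intro i S
    rw [a3]
    split_ifs
    · rw [one_smul]
    · rw [zero_smul]
  · obtain ⟨f, a1, a2, a3⟩ := exists_wb4 (inc := in3 K) (P := fun i => UN.W.D (N K i i)) h1 h2
      hPU hPE (c := fun i S => if i ∈ S.1 then 0 else 1) (by
        intro i S
        rw [D_eq, Q_in3, Matrix.sub_mulVec, Matrix.one_mulVec, SHW.M_transpose, single_act]
        split_ifs
        · rw [one_smul, sub_self, map_zero, zero_smul]
        · rw [zero_smul, sub_zero, one_smul])
    refine no_form_wb (P := fun i => UN.W.D (N K i i)) hkey a1 a2 (Or.inr ?_) hcard v hv w hw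
    intro i S
    rw [a3]
    split_ifs
    · rw [zero_smul]
    · rw [one_smul]

/-- The irreducible subspaces of the example, with signs. -/
lemma data_sign [CharZero K] {W : Submodule K (A3 ⊕ A3 → K)} (hW : IsIrrSub (GN (N K)) W) :
    (finrank K W = 6 ∧ HasSign (UN.W.Jd K A3) (GN (N K)) W 1) ∨
    (finrank K W = 4 ∧ HasSign (UN.W.Jd K A3) (GN (N K)) W 0) := by
  obtain ⟨j, h1, h2⟩ := dec.exists_iso hW
  have e1 := fr_transfer_one h1 h2
  have hj : j = 0 ∨ j = 1 ∨ j = 2 ∨ j = 3 := by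
    fin_cases j <;> simp
  rcases hj with rfl | rfl | rfl | rfl
  · right
    refine ⟨?_, sign_four hW (Or.inl rfl) h1 h2⟩
    rw [e1]
    exact (fr_range in1_inj).trans card1
  · left
    refine ⟨?_, sign_six (Or.inl rfl) h2⟩
    rw [e1]
    exact (fr_range in2_inj).trans card2
  · right
    refine ⟨?_, sign_four hW (Or.inr rfl) h1 h2⟩
    rw [e1]
    exact (fr_range in3_inj).trans card1
  · left
    refine ⟨?_, sign_six (Or.inr rfl) h2⟩
    rw [e1]
    exact (fr_range in4_inj).trans card2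

end four

/-- The special linear group of rank four, with signs. -/
theorem exS_four (K : Type*) [Field K] [IsAlgClosed K] [CharZero K] :
    ∃ (m : Type) (_ : Fintype m) (_ : DecidableEq m) (J : Matrix m m K)
      (G : Subgroup (Matrix.GeneralLinearGroup m K)) (π : Matrix m m K),
      IsStrongMTPair ⊥ J G π ∧ IsReductiveRep G ∧
      (∀ W, IsIrrSub G W → (finrank K W = 6 ∧ HasSign J G W 1 ∧ HasSig ⊥ G π W 3 ∧
          BadAt ⊥ G π W 2) ∨
        (finrank K W = 4 ∧ HasSign J G W 0 ∧ HasSig ⊥ G π W 1 ∧ BadAt ⊥ G π W 1)) ∧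
      ¬ ContainsDer J G := by
  refine ⟨SH4.A3 ⊕ SH4.A3, inferInstance, inferInstance, UN.W.Jd K SH4.A3, GN (SH4.N K),
    UN.W.D (SH4.N K 0 0), strong SH4.rel 0, SH4.dec.red, fun W hW => ?_, fun h => ?_⟩
  · rcases data_sign hW with ⟨a, b⟩ | ⟨a, b⟩ <;> rcases SH4.data_irr hW with ⟨c, d⟩ | ⟨c, d⟩
    · exact Or.inl ⟨a, b, d⟩
    · omega
    · omega
    · exact Or.inr ⟨a, b, d⟩
  · exact SH4.g0_not_mem (h _ SH4.g0_iso (fun T hT => SH4.g0_comm hT)
      (fun W _ hst => det_restrict SH4.g0_sq hst))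

end FR.SP
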