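import Pool.Agent.Helper43.FRS.Defs
import Pool.Agent.Helper43.FRS.SG
import Pool.Agent.Helper90.AV.Shw

/-!
Sharpness: exterior powers, with the sign of the form.
-/

set_option linter.unusedSimpArgs false
set_option linter.unusedSectionVars false
set_option linter.unusedVariables false

open Module MTPairs

namespace FR.SW

open MTP UN AV AV.SHW UN.W TR TR.W3

section two
variable {K : Type*} [Field K] {m : Type*} [Fintype m] [DecidableEq m]
  {G : Subgroup (Matrix.GeneralLinearGroup (m ⊕ m) K)}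

/-- The irreducible subspaces. -/
theorem irr_cases (hG : G ≤ Cen (e1 K m))
    (h1 : ∀ U ≤ W1 K m, IsSub G U → U = ⊥ ∨ U = W1 K m)
    (h2 : ∀ U ≤ W2 K m, IsSub G U → U = ⊥ ∨ U = W2 K m) {W : Submodule K (m ⊕ m → K)}
    (hW : IsIrrSub G W) :
    W = W1 K m ∨ ((∀ u ∈ W, p2 K m u = 0 → u = 0) ∧ ∀ w, ∃ u ∈ W, p2 K m u = w) := by
  have hc : IsCompl (W1 K m) (W2 K m) := compl_W
  have hs1 := sub_W1 hG
  have hs2 := sub_W2 hG
  rcases hW.irr (W ⊓ W1 K m) inf_le_left (isSub_inf hW.sub hs1) with h | h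
  · right
    have hinj : ∀ u ∈ W, p2 K m u = 0 → u = 0 := by
      intro u hu h0
      have : u ∈ W ⊓ W1 K m := ⟨hu, fun i => congrFun h0 i⟩
      rw [h] at this
      exact this
    refine ⟨hinj, ?_⟩
    rcases h2 ((W ⊔ W1 K m) ⊓ W2 K m) inf_le_right (isSub_inf (isSub_sup hW.sub hs1) hs2)
      with h' | h'
    · exfalso
      apply hW.ne
      rw [← h]
      apply le_antisymm _ inf_le_left
      refine le_inf le_rfl ?_
      have e1 : W ⊔ W1 K m = W1 K m := by
        calc W ⊔ W1 K m = (W ⊔ W1 K m) ⊓ (W1 K m ⊔ W2 K m) := by rw [hc.sup_eq_top, inf_top_eq]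
          _ = W1 K m ⊔ (W ⊔ W1 K m) ⊓ W2 K m := by
            rw [inf_comm, sup_inf_assoc_of_le _ le_sup_right, inf_comm]
          _ = W1 K m := by rw [h', sup_bot_eq]
      exact sup_eq_right.mp e1
    · intro w
      have hw : i2 K m w ∈ (W ⊔ W1 K m) ⊓ W2 K m := by
        rw [h', ← range_i2]
        exact ⟨w, rfl⟩
      obtain ⟨a, ha, b, hb, hab⟩ := Submodule.mem_sup.mp hw.1
      refine ⟨a, ha, ?_⟩
      ext i
      have h3 := congrFun hab (Sum.inr i)
      rw [Pi.add_apply, hb i, add_zero] at h3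
      exact h3
  · left
    have hle : W ≤ W1 K m := by rw [← h]; exact inf_le_right
    rcases h1 W hle hW.sub with h' | h'
    · exact absurd h' hW.ne
    · exact h'

end two

/-- The idempotents are adjoint to their complements. -/
lemma form_cochar {K : Type*} [Field K] [CharZero K] {m : Type*} [Fintype m] [DecidableEq m]
    {J : Matrix m m K} {G : Subgroup (Matrix.GeneralLinearGroup m K)} {P : Matrix m m K}
    (hc : IsCochar G P) (hl : P.transpose * J + J * P = J) {W : Submodule K (m → K)}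
    {B : Matrix m m K} (hB : IsFormOn J G W B) (hPW : ∀ v ∈ W, P.mulVec v ∈ W) :
    ∀ v ∈ W, ∀ w ∈ W, fJ B (P.mulVec v) w = fJ B v (w - P.mulVec w) := by
  obtain ⟨hPP, hct⟩ := hc
  obtain ⟨g, hg, hgt⟩ := hct 2 two_ne_zero
  have hgJ : (g : Matrix m m K).transpose * J * (g : Matrix m m K) = (2 : K) • J := by
    rw [hgt]; exact torus_sim hPP hl 2
  have hgv : ∀ v, (g : Matrix m m K).mulVec v = v + P.mulVec v := by
    intro v
    rw [hgt]
    have : (2 : K) • P + (1 - P) = 1 + P := by rw [two_smul]; abel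
    rw [this, Matrix.add_mulVec, Matrix.one_mulVec]
  have hppv : ∀ v, P.mulVec (P.mulVec v) = P.mulVec v := fun v => by
    rw [Matrix.mulVec_mulVec, hPP]
  have hF : ∀ v ∈ W, ∀ w ∈ W, fJ B (v + P.mulVec v) (w + P.mulVec w) = 2 * fJ B v w := by
    intro v hv w hw
    have := hB.2 g hg 2 hgJ v hv w hw
    rw [hgv, hgv] at this
    rw [GA.fJ_apply, GA.fJ_apply]
    exact this
  have hz1 : ∀ v ∈ W, ∀ w ∈ W, fJ B (P.mulVec v) (P.mulVec w) = 0 := by
    intro v hv w hw
    have := hF _ (hPW v hv) _ (hPW w hw)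
    simp only [map_add, LinearMap.add_apply, hppv] at this
    have h2 : (2 : K) * fJ B (P.mulVec v) (P.mulVec w) = 0 := by linear_combination this
    exact (mul_eq_zero.mp h2).resolve_left two_ne_zero
  have hz2 : ∀ v ∈ W, ∀ w ∈ W, fJ B (v - P.mulVec v) (w - P.mulVec w) = 0 := by
    intro v hv w hw
    have := hF (v - P.mulVec v) (W.sub_mem hv (hPW v hv)) (w - P.mulVec w)
      (W.sub_mem hw (hPW w hw))
    rw [Matrix.mulVec_sub, hppv, sub_self, add_zero, Matrix.mulVec_sub, hppv, sub_self,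
      add_zero] at this
    linear_combination -this
  intro v hv w hw
  have h1 := hz1 v hv w hw
  have h2 := hz2 v hv w hw
  simp only [map_sub, LinearMap.sub_apply] at h2 ⊢
  linear_combination h1 - h2

section wedge
variable {K : Type*} [Field K] {ι : Type*} [LinearOrder ι] [Fintype ι] {k : ℕ}

lemma diag_mulVec (i : ι) (v : Ix ι k → K) (S : Ix ι k) :
    (M K k i i).mulVec v S = if i ∈ S.1 then v S else 0 := by
  rw [M_same, Matrix.mulVec_diagonal]
  split_ifs <;> simp

/-- A basis of weight vectors of an irreducible subspace. -/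
lemma exists_wb [CharZero K] {W : Submodule K (Ix ι k ⊕ Ix ι k → K)}
    (hW : IsIrrSub (GG K ι k) W) :
    ∃ f : Ix ι k → (Ix ι k ⊕ Ix ι k → K), (∀ S, f S ∈ W) ∧
      (∀ w ∈ W, ∃ c : Ix ι k → K, w = ∑ S, c S • f S) ∧
      ((∀ i S, (D (M K k i i)).mulVec (f S) = if i ∈ S.1 then f S else 0) ∨
        (∀ i S, (D (M K k i i)).mulVec (f S) = if i ∈ S.1 then 0 else f S)) := by
  classical
  rcases irr_cases GG_cen irr1 irr2 hW with rfl | ⟨hinj, hsur⟩
  · refine ⟨fun S => i1 K _ (Pi.single S 1), fun S => ?_, ?_, Or.inl ?_⟩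
    · rw [← range_i1]; exact ⟨_, rfl⟩
    · intro w hw
      rw [← range_i1] at hw
      obtain ⟨v, rfl⟩ := hw
      refine ⟨v, ?_⟩
      conv_lhs => rw [← Finset.univ_sum_single v]
      rw [map_sum]
      apply Finset.sum_congr rfl
      intro S _
      rw [← map_smul]
      congr 1
      ext T
      rw [Pi.smul_apply, smul_eq_mul]
      by_cases h : T = S
      · subst h; simp
      · simp [Pi.single_eq_of_ne h]
    · intro i S
      rw [D, blk_i1]
      have : (M K k i i).mulVec (Pi.single S 1) =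
          if i ∈ S.1 then (Pi.single S 1 : Ix ι k → K) else 0 := by
        ext T
        rw [diag_mulVec]
        by_cases h : T = S
        · subst h; split_ifs <;> simp
        · split_ifs <;> simp [Pi.single_eq_of_ne h]
      rw [this]
      split_ifs
      · rfl
      · exact map_zero _
  · choose f hf hpf using hsur
    refine ⟨fun S => f (Pi.single S 1), fun S => hf _, ?_, Or.inr ?_⟩
    · intro w hw
      refine ⟨p2 K _ w, ?_⟩
      have h1 : w - ∑ S, (p2 K _ w) S • f (Pi.single S 1) ∈ W :=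
        W.sub_mem hw (W.sum_mem fun S _ => W.smul_mem _ (hf _))
      have h2 : p2 K _ (w - ∑ S, (p2 K _ w) S • f (Pi.single S 1)) = 0 := by
        rw [map_sub, map_sum]
        have : ∀ S, p2 K (Ix ι k) ((p2 K _ w) S • f (Pi.single S 1)) =
            Pi.single S ((p2 K _ w) S) := by
          intro S
          rw [map_smul, hpf]
          ext T
          rw [Pi.smul_apply, smul_eq_mul]
          by_cases h : T = S
          · subst h; simp
          · simp [Pi.single_eq_of_ne h]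
        simp only [this]
        rw [Finset.univ_sum_single, sub_self]
      exact sub_eq_zero.mp (hinj _ h1 h2)
    · intro i S
      have hP : M K k i i ∈ Lam K ι k := Or.inl ⟨i, rfl⟩
      have h1 := pres_D hW.sub hP _ (hf (Pi.single S 1))
      have h2 : p2 K _ ((D (M K k i i)).mulVec (f (Pi.single S 1))) =
          if i ∈ S.1 then 0 else (Pi.single S 1 : Ix ι k → K) := by
        rw [D, p2_blk, hpf, Matrix.sub_mulVec, Matrix.one_mulVec, M_transpose]
        ext T
        rw [Pi.sub_apply, diag_mulVec]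
        by_cases h : T = S
        · subst h; split_ifs <;> simp
        · split_ifs <;> simp [Pi.single_eq_of_ne h]
      split_ifs at h2 ⊢ with hi
      · exact hinj _ h1 h2
      · have h3 := hinj _ (W.sub_mem h1 (hf (Pi.single S 1))) (by
          rw [map_sub, h2, hpf, sub_self])
        exact sub_eq_zero.mp h3

/-- Exterior powers which are not self dual. -/
theorem sign_off [CharZero K] (hk : 2 * k < Fintype.card ι)
    {W : Submodule K (Ix ι k ⊕ Ix ι k → K)} (hW : IsIrrSub (GG K ι k) W) :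
    HasSign (Jd K (Ix ι k)) (GG K ι k) W 0 := by
  left
  refine ⟨rfl, fun B hB => ?_⟩
  obtain ⟨f, hf, hsp, hact⟩ := exists_wb hW
  have hP : ∀ i, M K k i i ∈ Lam K ι k := fun i => Or.inl ⟨i, rfl⟩
  have hco : ∀ i, IsCochar (GG K ι k) (D (M K k i i)) := fun i =>
    GenG_cochar (Lam2_idem _ ⟨_, hP i, rfl⟩) ⟨_, hP i, rfl⟩
  have hkey : ∀ i, ∀ v ∈ W, ∀ w ∈ W, fJ B ((D (M K k i i)).mulVec v) w =
      fJ B v (w - (D (M K k i i)).mulVec w) := fun i =>
    form_cochar (hco i) (D_lag _) hB (pres_D hW.sub (hP i))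
  have hz : ∀ S T, fJ B (f S) (f T) = 0 := by
    intro S T
    by_contra hne
    have h1 : ∀ i, i ∈ S.1 ↔ i ∉ T.1 := by
      intro i
      have h2 := hkey i _ (hf S) _ (hf T)
      rcases hact with h | h
      · rw [h, h] at h2
        by_cases hi : i ∈ S.1 <;> by_cases hj : i ∈ T.1 <;> simp [hi, hj] at h2 ⊢
        · exact hne h2
        · exact hne h2.symm
      · rw [h, h] at h2
        by_cases hi : i ∈ S.1 <;> by_cases hj : i ∈ T.1 <;> simp [hi, hj] at h2 ⊢
        · exact hne h2.symm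
        · exact hne h2
    have h3 : S.1 = (T.1)ᶜ := by
      ext i
      rw [Finset.mem_compl]
      exact h1 i
    have h4 := congrArg Finset.card h3
    rw [S.2, Finset.card_compl, T.2] at h4
    omega
  obtain ⟨v, hv, w, hw, hvw⟩ := hB.1
  apply hvw
  rw [← GA.fJ_apply]
  obtain ⟨c, rfl⟩ := hsp v hv
  obtain ⟨d, rfl⟩ := hsp w hw
  rw [map_sum]
  apply Finset.sum_eq_zero
  intro T _
  rw [map_sum, LinearMap.sum_apply]
  apply Finset.sum_eq_zero
  intro S _
  rw [map_smul, map_smul, LinearMap.smul_apply, hz, smul_zero, smul_zero]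

end wedge

section mid
variable {K : Type*} [Field K] {m : ℕ}

lemma ep_compl' (S : Finset (Fin (2 * m))) : ep K S * ep K Sᶜ = (-1) ^ m := by
  unfold ep
  rw [Finset.prod_mul_prod_compl, prod_sign]

lemma Jw_sq' : Jw K m * Jw K m = ((-1 : K) ^ m) • 1 := by
  ext S T
  rw [Jw_mul, Jw, cp_cp, Matrix.smul_apply, Matrix.one_apply]
  by_cases h : S = T
  · subst h
    rw [if_pos rfl, if_pos rfl, smul_eq_mul, mul_one]
    exact ep_compl' S.1
  · rw [if_neg (Ne.symm h), if_neg h]; simp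

lemma Jw_transpose' : (Jw K m).transpose = ((-1 : K) ^ m) • Jw K m := by
  ext S T
  rw [Matrix.transpose_apply, Matrix.smul_apply, smul_eq_mul, Jw, Jw]
  by_cases h : T = cp S
  · rw [if_pos h, if_pos (cp_eq.mp h), h]
    have h1 := ep_compl' (K := K) S.1
    have h2 := ep_sq (K := K) S.1
    change ep K (S.1)ᶜ = _
    linear_combination (ep K S.1) * h1 - (ep K (S.1)ᶜ) * h2
  · rw [if_neg h, if_neg (fun h' => h (cp_eq.mpr h'))]; simp

lemma neg_one_sq' : ((-1 : K) ^ m) * ((-1 : K) ^ m) = 1 := by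
  rw [← mul_pow]; simp

/-- The inverse form. -/
lemma Lam_lag' {P : Matrix (Ix (Fin (2 * m)) m) (Ix (Fin (2 * m)) m) K}
    (hP : P ∈ Lam K (Fin (2 * m)) m) : P * Jw K m + Jw K m * P.transpose = Jw K m := by
  have h := Lam_lag (K := K) (m := m) P hP
  have h1 : Jw K m * (P.transpose * Jw K m + Jw K m * P) * Jw K m =
      Jw K m * Jw K m * Jw K m := by rw [h]
  have h2 : Jw K m * (P.transpose * Jw K m + Jw K m * P) * Jw K m =
      Jw K m * P.transpose * (Jw K m * Jw K m) + (Jw K m * Jw K m) * P * Jw K m := by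
    noncomm_ring
  rw [h2, Jw_sq'] at h1
  simp only [mul_smul_comm, smul_mul_assoc, mul_one, one_mul, ← smul_add] at h1
  have h3 := congrArg (fun X => ((-1 : K) ^ m) • X) h1
  simp only [smul_smul, neg_one_sq', one_smul] at h3
  rw [add_comm]
  exact h3

/-- A matrix `B` such that `Jd + B` is invertible and the idempotents are adjoint to their
complements. -/
lemma mult_eq {B1 B2 : Matrix (Ix (Fin (2 * m)) m) (Ix (Fin (2 * m)) m) K}
    (hdet : (Jd K _ + Matrix.fromBlocks B1 0 0 B2).det ≠ 0)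
    (hlag : ∀ P ∈ Lam2 K (Fin (2 * m)) m, P.transpose * Matrix.fromBlocks B1 0 0 B2 +
      Matrix.fromBlocks B1 0 0 B2 * P = Matrix.fromBlocks B1 0 0 B2)
    {g : Matrix.GeneralLinearGroup (Ix (Fin (2 * m)) m ⊕ Ix (Fin (2 * m)) m) K}
    (hg : g ∈ GG K (Fin (2 * m)) m) {c : K}
    (hc : (g : Matrix (Ix (Fin (2 * m)) m ⊕ Ix (Fin (2 * m)) m) (Ix (Fin (2 * m)) m ⊕ Ix (Fin (2 * m)) m) K).transpose * Jd K _ * (g : Matrix _ _ K) = c • Jd K _) :
    (g : Matrix (Ix (Fin (2 * m)) m ⊕ Ix (Fin (2 * m)) m) (Ix (Fin (2 * m)) m ⊕ Ix (Fin (2 * m)) m) K).transpose * Matrix.fromBlocks B1 0 0 B2 * (g : Matrix _ _ K) =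
      c • Matrix.fromBlocks B1 0 0 B2 := by
  set B := Matrix.fromBlocks B1 0 0 B2 with hBd
  have hle : GG K (Fin (2 * m)) m ≤ Sim (Jd K _ + B) := by
    apply GenG_le (Sim_closed hdet)
    intro π hπ
    have hi := Lam2_idem π hπ
    refine ⟨hi, fun t ht => ?_⟩
    refine ⟨⟨t • π + (1 - π), t⁻¹ • π + (1 - π), torus_mul hi ht, ?_⟩, ?_, rfl⟩
    · have := torus_mul hi (inv_ne_zero ht)
      rwa [inv_inv] at this
    · refine ⟨t, ht, torus_sim hi ?_ t⟩
      have e1 := Lam2_lag π hπ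
      have e2 := hlag π hπ
      calc π.transpose * (Jd K _ + B) + (Jd K _ + B) * π =
          (π.transpose * Jd K _ + Jd K _ * π) + (π.transpose * B + B * π) := by noncomm_ring
        _ = _ := by rw [e1, e2]
  obtain ⟨d, -, hd⟩ := hle hg
  have hcen : (g : Matrix _ _ K) * e1 K (Ix (Fin (2 * m)) m) = e1 K _ * (g : Matrix _ _ K) :=
    GG_cen hg
  -- the blocks of `g`
  obtain ⟨A, A', hgA⟩ : ∃ A A' : Matrix (Ix (Fin (2 * m)) m) (Ix (Fin (2 * m)) m) K,
      (g : Matrix (Ix (Fin (2 * m)) m ⊕ Ix (Fin (2 * m)) m)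
        (Ix (Fin (2 * m)) m ⊕ Ix (Fin (2 * m)) m) K) = Matrix.fromBlocks A 0 0 A' := by
    refine ⟨(g : Matrix (Ix (Fin (2 * m)) m ⊕ Ix (Fin (2 * m)) m)
      (Ix (Fin (2 * m)) m ⊕ Ix (Fin (2 * m)) m) K).toBlocks₁₁,
      (g : Matrix (Ix (Fin (2 * m)) m ⊕ Ix (Fin (2 * m)) m)
      (Ix (Fin (2 * m)) m ⊕ Ix (Fin (2 * m)) m) K).toBlocks₂₂, ?_⟩
    have h0 := Matrix.fromBlocks_toBlocks (g : Matrix (Ix (Fin (2 * m)) m ⊕ Ix (Fin (2 * m)) m)
      (Ix (Fin (2 * m)) m ⊕ Ix (Fin (2 * m)) m) K)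
    rw [← h0, e1, Matrix.fromBlocks_multiply, Matrix.fromBlocks_multiply] at hcen
    simp only [mul_one, Matrix.mul_zero, add_zero, one_mul, Matrix.zero_mul, zero_add] at hcen
    obtain ⟨-, a2, a3, -⟩ := Matrix.fromBlocks_inj.mp hcen
    conv_lhs => rw [← h0]
    rw [← a2, a3]
  rw [mul_add, add_mul, hc, smul_add] at hd
  rw [hgA] at hd ⊢
  rw [hBd, Matrix.fromBlocks_transpose, Matrix.fromBlocks_multiply, Matrix.fromBlocks_multiply]
    at hd ⊢
  simp only [Matrix.transpose_zero, Matrix.mul_zero, Matrix.zero_mul, add_zero, zero_add] at hd ⊢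
  rw [Jd, Matrix.fromBlocks_smul, Matrix.fromBlocks_smul, Matrix.fromBlocks_smul,
    Matrix.fromBlocks_add, Matrix.fromBlocks_add] at hd
  obtain ⟨a1, a2, -, a4⟩ := Matrix.fromBlocks_inj.mp hd
  simp only [smul_zero, zero_add, add_zero] at a1 a2 a4
  rw [Matrix.fromBlocks_smul, smul_zero]
  rcases isEmpty_or_nonempty (Ix (Fin (2 * m)) m) with hem | hne
  · ext i j
    rcases i with i | i <;> exact hem.elim i
  · obtain ⟨S⟩ := hne
    have hcd : c = d := by
      have := congrFun (congrFun a2 S) S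
      simpa using this
    rw [a1, a4, hcd]

/-- Self dual exterior powers. -/
theorem sign_mid [CharZero K] {W : Submodule K (Ix (Fin (2 * m)) m ⊕ Ix (Fin (2 * m)) m → K)}
    (hW : IsIrrSub (GG K (Fin (2 * m)) m) W) :
    HasSign (Jd K _) (GG K (Fin (2 * m)) m) W ((-1) ^ m) := by
  classical
  obtain ⟨S, -, hS⟩ : ∃ S : Finset (Fin (2 * m)), S ⊆ Finset.univ ∧ S.card = m :=
    Finset.exists_subset_card_eq (by rw [Finset.card_univ, Fintype.card_fin]; omega)
  set S0 : Ix (Fin (2 * m)) m := ⟨S, hS⟩ with hS0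
  have hcast : (((-1 : ℤ) ^ m : ℤ) : K) = (-1 : K) ^ m := by push_cast; rfl
  have hsym : ∀ B : Matrix (Ix (Fin (2 * m)) m ⊕ Ix (Fin (2 * m)) m)
      (Ix (Fin (2 * m)) m ⊕ Ix (Fin (2 * m)) m) K, B.transpose = ((-1 : K) ^ m) • B →
      ∀ v w, v ⬝ᵥ B.mulVec w = (((-1 : ℤ) ^ m : ℤ) : K) * (w ⬝ᵥ B.mulVec v) := by
    intro B hB v w
    have h1 : w ⬝ᵥ B.mulVec v = v ⬝ᵥ (B.transpose).mulVec w := by
      rw [Matrix.dotProduct_mulVec, ← Matrix.mulVec_transpose, dotProduct_comm]
    rw [h1, hB, Matrix.smul_mulVec, dotProduct_smul, smul_eq_mul, hcast, ← mul_assoc,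
      neg_one_sq', one_mul]
  have hsim : ∀ B : Matrix (Ix (Fin (2 * m)) m ⊕ Ix (Fin (2 * m)) m)
      (Ix (Fin (2 * m)) m ⊕ Ix (Fin (2 * m)) m) K, ∀ g : Matrix _ _ K, ∀ c : K,
      g.transpose * B * g = c • B → ∀ v w, (g.mulVec v) ⬝ᵥ B.mulVec (g.mulVec w) =
        c * (v ⬝ᵥ B.mulVec w) := by
    intro B g c h v w
    have e : (g.mulVec v) ⬝ᵥ B.mulVec (g.mulVec w) = v ⬝ᵥ (g.transpose * B * g).mulVec w := by
      rw [← Matrix.mulVec_mulVec, ← Matrix.mulVec_mulVec, Matrix.dotProduct_mulVec v,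
        Matrix.vecMul_transpose]
    rw [e, h, Matrix.smul_mulVec, dotProduct_smul, smul_eq_mul]
  have hval : ∀ T : Ix (Fin (2 * m)) m, (Pi.single T (1 : K)) ⬝ᵥ
      (Jw K m).mulVec (Pi.single (cp T) 1) ≠ 0 := by
    intro T
    rw [Matrix.mulVec_single_one, single_one_dotProduct]
    change Jw K m T (cp T) ≠ 0
    rw [Jw, if_pos rfl]
    intro h0
    have := ep_sq (K := K) T.1
    rw [h0, mul_zero] at this
    exact zero_ne_one this
  have hdet1 : (Jd K (Ix (Fin (2 * m)) m) + Matrix.fromBlocks (Jw K m) 0 0 0).det ≠ 0 := by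
    have e : (Jd K (Ix (Fin (2 * m)) m) + Matrix.fromBlocks (Jw K m) 0 0 0) *
        Matrix.fromBlocks 0 (-1) 1 (Jw K m) = 1 := by
      rw [Jd, Matrix.fromBlocks_add, Matrix.fromBlocks_multiply, ← Matrix.fromBlocks_one]
      simp
    intro h0
    have := congrArg Matrix.det e
    rw [Matrix.det_mul, h0, zero_mul, Matrix.det_one] at this
    exact zero_ne_one this
  have hdet2 : (Jd K (Ix (Fin (2 * m)) m) + Matrix.fromBlocks 0 0 0 (Jw K m)).det ≠ 0 := by
    have e : (Jd K (Ix (Fin (2 * m)) m) + Matrix.fromBlocks 0 0 0 (Jw K m)) *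
        Matrix.fromBlocks (Jw K m) (-1) 1 0 = 1 := by
      rw [Jd, Matrix.fromBlocks_add, Matrix.fromBlocks_multiply, ← Matrix.fromBlocks_one]
      simp
    intro h0
    have := congrArg Matrix.det e
    rw [Matrix.det_mul, h0, zero_mul, Matrix.det_one] at this
    exact zero_ne_one this
  right
  rcases irr_cases GG_cen irr1 irr2 hW with rfl | ⟨hinj, hsur⟩
  · refine ⟨Matrix.fromBlocks (Jw K m) 0 0 0, ⟨?_, ?_⟩, fun v _ w _ => hsym _ ?_ v w⟩
    · refine ⟨i1 K _ (Pi.single S0 1), by rw [← range_i1]; exact ⟨_, rfl⟩,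
        i1 K _ (Pi.single (cp S0) 1), by rw [← range_i1]; exact ⟨_, rfl⟩, ?_⟩
      rw [blk_i1]
      have : ∀ a b : Ix (Fin (2 * m)) m → K, i1 K _ a ⬝ᵥ i1 K _ b = a ⬝ᵥ b := by
        intro a b
        simp [i1_apply, dotProduct, Fintype.sum_sum_type]
      rw [this]
      exact hval S0
    · intro g hg c hc v _ w _
      refine hsim _ _ c (mult_eq hdet1 ?_ hg hc) v w
      rintro _ ⟨P, hP, rfl⟩
      rw [D, Matrix.fromBlocks_transpose, Matrix.fromBlocks_multiply, Matrix.fromBlocks_multiply,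
        Matrix.fromBlocks_add]
      simp only [Matrix.transpose_zero, Matrix.mul_zero, Matrix.zero_mul, add_zero, zero_add]
      rw [Lam_lag P hP]
    · rw [Matrix.fromBlocks_transpose, Jw_transpose', Matrix.fromBlocks_smul]
      simp
  · refine ⟨Matrix.fromBlocks 0 0 0 (Jw K m), ⟨?_, ?_⟩, fun v _ w _ => hsym _ ?_ v w⟩
    · obtain ⟨a, ha, hpa⟩ := hsur (Pi.single S0 1)
      obtain ⟨b, hb, hpb⟩ := hsur (Pi.single (cp S0) 1)
      refine ⟨a, ha, b, hb, ?_⟩
      have : a ⬝ᵥ (Matrix.fromBlocks 0 0 0 (Jw K m)).mulVec b =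
          (p2 K _ a) ⬝ᵥ (Jw K m).mulVec (p2 K _ b) := by
        rw [← p2_blk 0]
        have h0 : ∀ i : Ix (Fin (2 * m)) m, (Matrix.fromBlocks
            (0 : Matrix (Ix (Fin (2 * m)) m) (Ix (Fin (2 * m)) m) K) 0 0 (Jw K m)).mulVec b
            (Sum.inl i) = 0 := by
          intro i
          simp [Matrix.mulVec, dotProduct, Matrix.fromBlocks, Fintype.sum_sum_type]
        rw [dotProduct, Fintype.sum_sum_type]
        simp only [h0, mul_zero, Finset.sum_const_zero, zero_add]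
        rfl
      rw [this, hpa, hpb]
      exact hval S0
    · intro g hg c hc v _ w _
      refine hsim _ _ c (mult_eq hdet2 ?_ hg hc) v w
      rintro _ ⟨P, hP, rfl⟩
      rw [D, Matrix.fromBlocks_transpose, Matrix.fromBlocks_multiply, Matrix.fromBlocks_multiply,
        Matrix.fromBlocks_add]
      simp only [Matrix.transpose_zero, Matrix.mul_zero, Matrix.zero_mul, add_zero, zero_add,
        Matrix.transpose_sub, Matrix.transpose_one, Matrix.transpose_transpose]
      congr 1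
      have h3 := Lam_lag' (K := K) (m := m) hP
      calc (1 - P) * Jw K m + Jw K m * (1 - P.transpose) =
          Jw K m + Jw K m - (P * Jw K m + Jw K m * P.transpose) := by noncomm_ring
        _ = Jw K m := by rw [h3]; abel
    · rw [Matrix.fromBlocks_transpose, Jw_transpose', Matrix.fromBlocks_smul]
      simp

end mid

end FR.SW
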